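import Pool.Agent.V1183.DL.Est
import Pool.Agent.V1178.NS.Per1
import Pool.Agent.V1178.NS.Fun
import Pool.Agent.V1178.NS.Stmt

/-!
Passage from fields on a bounded open set to periodic fields.
-/

open MeasureTheory Set Filter Topology
open scoped ContDiff ENNReal

set_option autoImplicit false

namespace Pool.Agent.V1183.DL

open H459R3.NS Pool.Agent.V1178.NS

/-- the one-dimensional cut-off functions -/
structure Cut (r : ℝ) (χ θ : ℝ → ℝ) : Prop where
  r0 : 0 < r
  r1 : r < 1 / 4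
  χs : ContDiff ℝ ∞ χ
  χ1 : ∀ z, |z - 1 / 2| ≤ r / 2 → χ z = 1
  χ0 : ∀ z, 3 / 4 * r ≤ |z - 1 / 2| → χ z = 0
  χn : ∀ z, 0 ≤ χ z
  χle : ∀ z, χ z ≤ 1
  θs : ContDiff ℝ ∞ θ
  θ1 : ∀ z, |z - 1 / 2| ≤ r → θ z = z - 1 / 2
  θsup : Sup θ

theorem exists_cut {r : ℝ} (h0 : 0 < r) (h1 : r < 1 / 4) : ∃ χ θ, Cut r χ θ := by
  let β : ContDiffBump (1 / 2 : ℝ) := ⟨r / 2, 3 / 4 * r, by linarith, by linarith⟩
  let γ : ContDiffBump (1 / 2 : ℝ) := ⟨r, 1 / 4, h0, h1⟩
  refine ⟨β, fun z => (z - 1 / 2) * γ z, h0, h1, β.contDiff, fun z hz => ?_, fun z hz => ?_,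
    fun z => β.nonneg, fun z => β.le_one, (contDiff_id.sub contDiff_const).mul γ.contDiff,
    fun z hz => ?_, fun z hz => ?_⟩
  · refine β.one_of_mem_closedBall ?_
    rw [Metric.mem_closedBall, Real.dist_eq]
    exact hz
  · refine β.zero_of_le_dist ?_
    rw [Real.dist_eq]
    exact hz
  · have : γ z = 1 := γ.one_of_mem_closedBall (by
      rw [Metric.mem_closedBall, Real.dist_eq]
      exact hz)
    show (z - 1 / 2) * γ z = _
    rw [this, mul_one]
  · have : γ z = 0 := γ.zero_of_le_dist (by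
      rw [Real.dist_eq]
      show 1 / 4 ≤ |z - 1 / 2|
      by_contra hcon
      push Not at hcon
      rw [abs_lt] at hcon
      exact hz ⟨by linarith, by linarith⟩)
    show (z - 1 / 2) * γ z = 0
    rw [this, mul_zero]

theorem per1_near {f : ℝ → ℝ} (hf : Sup f) {z : ℝ} (hz : z ∈ Ioo (-(1 / 4) : ℝ) (5 / 4)) :
    per1 f z = f z := by
  unfold per1
  rcases lt_or_ge z 0 with h | h
  · have h1 : Int.fract z = z + 1 := by
      rw [Int.fract_eq_iff]
      exact ⟨by linarith [hz.1], by linarith, -1, by push_cast; ring⟩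
    rw [h1, hf (z + 1) (fun h2 => by linarith [h2.2, hz.1]),
      hf z (fun h2 => by linarith [h2.1])]
  · rcases lt_or_ge z 1 with h' | h'
    · rw [Int.fract_eq_self.2 ⟨h, h'⟩]
    · have h1 : Int.fract z = z - 1 := by
        rw [Int.fract_eq_iff]
        exact ⟨by linarith, by linarith [hz.2], 1, by push_cast; ring⟩
      rw [h1, hf (z - 1) (fun h2 => by linarith [h2.1, hz.2]),
        hf z (fun h2 => by linarith [h2.2])]

/-- the translation taking `b` to the centre of the period cell -/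
noncomputable def sg (b x : V) : V := fun i => x i - b i + 1 / 2

/-- the inverse translation -/
noncomputable def ti (b y : V) : V := fun i => y i - 1 / 2 + b i

theorem sg_ti (b y : V) : sg b (ti b y) = y := by
  funext i
  show y i - 1 / 2 + b i - b i + 1 / 2 = y i
  ring

theorem ti_sg (b x : V) : ti b (sg b x) = x := by
  funext i
  show x i - b i + 1 / 2 - 1 / 2 + b i = x i
  ring

theorem sg_add (b x : V) : sg b x = x + (sg b 0) := by
  funext i
  show x i - b i + 1 / 2 = x i + (0 - b i + 1 / 2)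
  ring

theorem ti_add (b x : V) : ti b x = x + (ti b 0) := by
  funext i
  show x i - 1 / 2 + b i = x i + (0 - 1 / 2 + b i)
  ring

theorem sg_smooth (b : V) : ContDiff ℝ ∞ (sg b) := by
  have : sg b = fun x => x + sg b 0 := funext (sg_add b)
  rw [this]
  exact contDiff_id.add contDiff_const

theorem ti_smooth (b : V) : ContDiff ℝ ∞ (ti b) := by
  have : ti b = fun x => x + ti b 0 := funext (ti_add b)
  rw [this]
  exact contDiff_id.add contDiff_const

/-- the cut-off function around `b` -/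
noncomputable def chO (χ : ℝ → ℝ) (b x : V) : ℝ := ∏ i, χ (sg b x i)

/-- the periodic cut-off function -/
noncomputable def chP (χ : ℝ → ℝ) (x : V) : ℝ := ∏ i, per1 χ (x i)

/-- the periodic field corresponding to `v` -/
noncomputable def Pe (χ θ : ℝ → ℝ) (b : V) (v : V → V) (x : V) : V :=
  chP χ x • v (fun i => b i + per1 θ (x i))

/-- a neighbourhood of the period cell -/
def U0 : Set V := {y | ∀ i, y i ∈ Ioo (-(1 / 4) : ℝ) (5 / 4)}

theorem U0_open : IsOpen U0 := by
  have : U0 = ⋂ i, (fun y : V => y i) ⁻¹' Ioo (-(1 / 4) : ℝ) (5 / 4) := by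
    ext y
    simp [U0]
  rw [this]
  exact isOpen_iInter_of_finite fun i => isOpen_Ioo.preimage (continuous_apply i)

theorem cube_U0 : cube ⊆ U0 := by
  intro y hy i
  have h1 := hy.1 i
  have h2 := hy.2 i
  simp only [Pi.zero_apply, Pi.one_apply] at h1 h2
  exact ⟨by linarith, by linarith⟩

section

variable {r : ℝ} {χ θ : ℝ → ℝ} {b : V} {Ω : Set V}

theorem Cut.χsup (h : Cut r χ θ) : Sup χ := by
  intro z hz
  refine h.χ0 z ?_
  have h0 := h.r0
  have h1 := h.r1
  by_contra hcon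
  push Not at hcon
  rw [abs_lt] at hcon
  exact hz ⟨by linarith, by linarith⟩

theorem Cut.chO_smooth (h : Cut r χ θ) : ContDiff ℝ ∞ (chO χ b) := by
  unfold chO
  refine contDiff_prod fun i _ => ?_
  exact h.χs.comp ((contDiff_apply ℝ ℝ i).comp (sg_smooth b))

theorem Cut.chP_smooth (h : Cut r χ θ) : ContDiff ℝ ∞ (chP χ) := by
  unfold chP
  refine contDiff_prod fun i _ => ?_
  exact (per1_contDiff h.χsup h.χs).comp (contDiff_apply ℝ ℝ i)

theorem Cut.Pe_spv (h : Cut r χ θ) {v : V → V} (hv : ContDiff ℝ ∞ v) : SPV (Pe χ θ b v) := by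
  refine ⟨?_, fun i x => ?_⟩
  · unfold Pe
    refine h.chP_smooth.smul (hv.comp (contDiff_pi.2 fun i => ?_))
    exact contDiff_const.add ((per1_contDiff h.θsup h.θs).comp (contDiff_apply ℝ ℝ i))
  · have e : ∀ (f : ℝ → ℝ) (j : Fin 3), per1 f ((x + Pi.single i 1 : V) j) = per1 f (x j) := by
      intro f j
      show per1 f (x j + (Pi.single i 1 : V) j) = _
      by_cases hj : j = i
      · subst hj
        rw [Pi.single_eq_same, per1_periodic]
      · rw [Pi.single_eq_of_ne hj, add_zero]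
    unfold Pe chP
    simp_rw [e]

theorem Cut.chO_nonneg (h : Cut r χ θ) (x : V) : 0 ≤ chO χ b x :=
  Finset.prod_nonneg fun _ _ => h.χn _

theorem Cut.chO_le (h : Cut r χ θ) (x : V) : chO χ b x ≤ 1 :=
  Finset.prod_le_one (fun _ _ => h.χn _) fun _ _ => h.χle _

theorem Cut.chO_zero (h : Cut r χ θ) {x : V} {i : Fin 3} (hx : 3 / 4 * r ≤ |x i - b i|) :
    chO χ b x = 0 := by
  refine Finset.prod_eq_zero (Finset.mem_univ i) (h.χ0 _ ?_)
  show 3 / 4 * r ≤ |x i - b i + 1 / 2 - 1 / 2|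
  rw [add_sub_cancel_right]
  exact hx

theorem Cut.chO_one (h : Cut r χ θ) {x : V} (hx : ∀ i, |x i - b i| ≤ r / 2) :
    chO χ b x = 1 := by
  refine Finset.prod_eq_one fun i _ => h.χ1 _ ?_
  show |x i - b i + 1 / 2 - 1 / 2| ≤ r / 2
  rw [add_sub_cancel_right]
  exact hx i

theorem Cut.chO_ne (h : Cut r χ θ) {x : V} (hx : chO χ b x ≠ 0) (i : Fin 3) :
    |x i - b i| < 3 / 4 * r := by
  by_contra hcon
  push Not at hcon
  exact hx (h.chO_zero hcon)

theorem Cut.chP_eq (h : Cut r χ θ) {x : V} (hx : sg b x ∈ U0) : chP χ (sg b x) = chO χ b x := by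
  unfold chP chO
  exact Finset.prod_congr rfl fun i _ => per1_near h.χsup (hx i)

theorem Cut.Pe_eq (h : Cut r χ θ) (v : V → V) {x : V} (hx : sg b x ∈ U0) :
    Pe χ θ b v (sg b x) = chO χ b x • v x := by
  unfold Pe
  rw [h.chP_eq hx]
  by_cases h0 : chO χ b x = 0
  · rw [h0, zero_smul, zero_smul]
  · congr 2
    funext i
    have h1 := h.chO_ne h0 i
    have hr := h.r0
    rw [per1_near h.θsup (hx i), h.θ1]
    · show b i + (x i - b i + 1 / 2 - 1 / 2) = x i
      ring
    · show |x i - b i + 1 / 2 - 1 / 2| ≤ r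
      rw [add_sub_cancel_right]
      linarith

/-- the set in which the functions are supported -/
def Sb (r : ℝ) (b : V) : Set V := {x | ∀ i, |x i - b i| < 3 / 4 * r}

theorem Cut.Pe_eq_ti (h : Cut r χ θ) (v : V → V) {y : V} (hy : y ∈ U0) :
    Pe χ θ b v y = chO χ b (ti b y) • v (ti b y) := by
  have := h.Pe_eq (b := b) v (x := ti b y) (by rw [sg_ti]; exact hy)
  rwa [sg_ti] at this

theorem Sb_cube (h0 : 0 < r) (h1 : r < 1 / 4) {y : V} (hy : ti b y ∈ Sb r b) : y ∈ cube := by
  have h2 : ∀ i, |y i - 1 / 2| < 3 / 4 * r := by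
    intro i
    have := hy i
    have e : ti b y i - b i = y i - 1 / 2 := by
      show y i - 1 / 2 + b i - b i = _
      ring
    rwa [e] at this
  refine ⟨fun i => ?_, fun i => ?_⟩
  · have := h2 i
    rw [abs_lt] at this
    show (0 : ℝ) ≤ y i
    linarith
  · have := h2 i
    rw [abs_lt] at this
    show y i ≤ (1 : ℝ)
    linarith

theorem tr_int (h0 : 0 < r) (h1 : r < 1 / 4) (hS : Sb r b ⊆ Ω) {H : V → ℝ}
    (hH : ∀ x, x ∉ Sb r b → H x = 0) : ∫ x in Ω, H x = ∫ y in cube, H (ti b y) := by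
  rw [setIntegral_eq_integral_of_forall_compl_eq_zero fun x hx => hH x fun h => hx (hS h),
    setIntegral_eq_integral_of_forall_compl_eq_zero fun y hy => hH _ fun h =>
      hy (Sb_cube h0 h1 h)]
  have e : (fun y => H (ti b y)) = fun y => H (y + ti b 0) := funext fun y => by rw [ti_add b y]
  rw [e]
  exact (integral_add_right_eq_self (fun x => H x) (ti b 0)).symm

theorem Cut.int (h : Cut r χ θ) (hS : Sb r b ⊆ Ω) (F w : V → V) (i : Fin 3) :
    ∫ x in Ω, (chO χ b x • F (sg b x)) i * w x i = ∫ y in cube, F y i * Pe χ θ b w y i := by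
  rw [tr_int h.r0 h.r1 hS (H := fun x => (chO χ b x • F (sg b x)) i * w x i)]
  · refine setIntegral_congr_fun measurableSet_Icc fun y hy => ?_
    show (chO χ b (ti b y) * F (sg b (ti b y)) i) * w (ti b y) i = F y i * Pe χ θ b w y i
    rw [h.Pe_eq_ti w (cube_U0 hy), sg_ti]
    show _ = F y i * (chO χ b (ti b y) * w (ti b y) i)
    ring
  · intro x hx
    have : chO χ b x = 0 := by
      by_contra hcon
      exact hx fun i => h.chO_ne hcon i
    show (chO χ b x * F (sg b x) i) * w x i = 0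
    rw [this]
    ring

theorem Cut.dotO_eq (h : Cut r χ θ) (hS : Sb r b ⊆ Ω) (F w : V → V) :
    dotO Ω (fun x => chO χ b x • F (sg b x)) w = dot F (Pe χ θ b w) := by
  unfold dotO dot
  exact Finset.sum_congr rfl fun i _ => h.int hS F w i

theorem tr_norm {E : Type*} [NormedAddCommGroup E] (h0 : 0 < r) (h1 : r < 1 / 4)
    (hS : Sb r b ⊆ Ω) {H : V → E} (hc : Continuous H) (hH : ∀ x, x ∉ Sb r b → H x = 0)
    (p : ℝ≥0∞) : NO Ω p H = Np p (fun y => H (ti b y)) := by
  unfold NO Np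
  have e1 : eLpNorm H p (volume.restrict Ω) = eLpNorm H p volume :=
    eLpNorm_restrict_eq_of_support_subset fun x hx => hS (by
      by_contra hcon
      exact hx (hH x hcon))
  have e2 : eLpNorm (fun y => H (ti b y)) p (volume.restrict cube)
      = eLpNorm (fun y => H (ti b y)) p volume :=
    eLpNorm_restrict_eq_of_support_subset fun y hy => Sb_cube h0 h1 (b := b) (by
      by_contra hcon
      exact hy (hH _ hcon))
  rw [e1, e2]
  have hm : MeasurePreserving (ti b) volume volume := by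
    have : ti b = fun x => x + ti b 0 := funext (ti_add b)
    rw [this]
    exact measurePreserving_add_right volume (ti b 0)
  rw [← eLpNorm_comp_measurePreserving (p := p) hc.aestronglyMeasurable hm]
  rfl

theorem Cut.prod_zero (h : Cut r χ θ) (v : V → V) {x : V} (hx : x ∉ Sb r b) :
    chO χ b x • v x = 0 := by
  have : chO χ b x = 0 := by
    by_contra hcon
    exact hx fun i => h.chO_ne hcon i
  rw [this, zero_smul]

theorem Cut.Np_le (h : Cut r χ θ) (hΩ : IsOpen Ω) (hb : Bornology.IsBounded Ω)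
    (hS : Sb r b ⊆ Ω) {v : V → V} (hv : ContDiff ℝ ∞ v) (p : ℝ≥0∞) :
    Np p (Pe χ θ b v) ≤ NO Ω p v := by
  have hc : Continuous (fun x => chO χ b x • v x) :=
    h.chO_smooth.continuous.smul hv.continuous
  have e1 : Np p (Pe χ θ b v) = NO Ω p (fun x => chO χ b x • v x) := by
    rw [tr_norm h.r0 h.r1 hS hc (fun x hx => h.prod_zero v hx) p]
    unfold Np
    congr 1
    refine eLpNorm_congr_ae ?_
    refine (ae_restrict_iff' measurableSet_Icc).2 (Eventually.of_forall fun y hy => ?_)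
    exact h.Pe_eq_ti v (cube_U0 hy)
  rw [e1]
  unfold NO
  refine ENNReal.toReal_mono (memO hΩ hb hv.continuous p).2.ne (eLpNorm_mono fun x => ?_)
  rw [norm_smul, Real.norm_of_nonneg (h.chO_nonneg x)]
  exact mul_le_of_le_one_left (norm_nonneg _) (h.chO_le x)

/-- the constant of the cut-off function -/
theorem Cut.exists_K (h : Cut r χ θ) (hb : Bornology.IsBounded Ω) :
    ∃ K : ℝ, 1 ≤ K ∧ ∀ x ∈ Ω, ‖fderiv ℝ (chO χ b) x‖ ≤ K := by
  obtain ⟨C, hC⟩ := bd_cont hb ((h.chO_smooth (b := b)).continuous_fderiv (by simp))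
  exact ⟨max 1 C, le_max_left _ _, fun x hx => (hC x hx).trans (le_max_right _ _)⟩

theorem Cut.fderiv_prod (h : Cut r χ θ) {v : V → V} (hv : ContDiff ℝ ∞ v) (x : V) :
    fderiv ℝ (fun x => chO χ b x • v x) x
      = chO χ b x • fderiv ℝ v x + (fderiv ℝ (chO χ b) x).smulRight (v x) := by
  have h1 := (h.chO_smooth (b := b)).differentiable (by simp) x
  have h2 := hv.differentiable (by simp) x
  exact (h1.hasFDerivAt.smul h2.hasFDerivAt).fderiv

theorem Cut.fderiv_zero (h : Cut r χ θ) {v : V → V} (hv : ContDiff ℝ ∞ v) {x : V}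
    (hx : x ∉ Sb r b) : fderiv ℝ (fun x => chO χ b x • v x) x = 0 := by
  have h0 : chO χ b x = 0 := by
    by_contra hcon
    exact hx fun i => h.chO_ne hcon i
  have h1 : IsLocalMin (chO χ b) x := Eventually.of_forall fun y => by
    show chO χ b x ≤ chO χ b y
    rw [h0]
    exact h.chO_nonneg y
  rw [h.fderiv_prod hv, h0, h1.fderiv_eq_zero]
  ext
  simp

theorem Cut.Np_fderiv_le (h : Cut r χ θ) (hΩ : IsOpen Ω) (hb : Bornology.IsBounded Ω)
    (hS : Sb r b ⊆ Ω) {K : ℝ} (hK1 : 1 ≤ K) (hK : ∀ x ∈ Ω, ‖fderiv ℝ (chO χ b) x‖ ≤ K)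
    {v : V → V} (hv : ContDiff ℝ ∞ v) {p : ℝ≥0∞} (hp : 1 ≤ p) :
    Np p (fderiv ℝ (Pe χ θ b v)) ≤ K * W1 Ω p v := by
  have hf : ContDiff ℝ ∞ (fun x => chO χ b x • v x) := h.chO_smooth.smul hv
  have hc : Continuous (fderiv ℝ (fun x => chO χ b x • v x)) := hf.continuous_fderiv (by simp)
  have hdv : Continuous (fderiv ℝ v) := hv.continuous_fderiv (by simp)
  have e1 : Np p (fderiv ℝ (Pe χ θ b v)) = NO Ω p (fderiv ℝ (fun x => chO χ b x • v x)) := by
    rw [tr_norm h.r0 h.r1 hS hc (fun x hx => h.fderiv_zero hv hx) p]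
    unfold Np
    congr 1
    refine eLpNorm_congr_ae ?_
    refine (ae_restrict_iff' measurableSet_Icc).2 (Eventually.of_forall fun y hy => ?_)
    have e2 : Pe χ θ b v =ᶠ[𝓝 y] fun z => (fun x => chO χ b x • v x) (z + ti b 0) := by
      filter_upwards [U0_open.mem_nhds (cube_U0 hy)] with z hz
      rw [h.Pe_eq_ti v hz, ti_add b z]
    show fderiv ℝ (Pe χ θ b v) y = fderiv ℝ (fun x => chO χ b x • v x) (ti b y)
    rw [e2.fderiv_eq, ti_add b y]
    exact fderiv_comp_add_right (f := fun x => chO χ b x • v x) (ti b 0)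
  have m1 := memO hΩ hb hdv p
  have m2 := memO hΩ hb hv.continuous p
  have e3 : eLpNorm (fderiv ℝ (fun x => chO χ b x • v x)) p (volume.restrict Ω)
      ≤ eLpNorm (fderiv ℝ v) p (volume.restrict Ω)
        + ENNReal.ofReal K * eLpNorm v p (volume.restrict Ω) := by
    calc eLpNorm (fderiv ℝ (fun x => chO χ b x • v x)) p (volume.restrict Ω)
        ≤ eLpNorm ((fun x => ‖fderiv ℝ v x‖) + fun x => K * ‖v x‖) p (volume.restrict Ω) := by
          refine eLpNorm_mono_ae ((ae_restrict_iff' hΩ.measurableSet).2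
            (Eventually.of_forall fun x hx => ?_))
          have k0 : 0 ≤ K := by linarith
          have k1 : 0 ≤ ‖fderiv ℝ v x‖ + K * ‖v x‖ := by positivity
          show ‖fderiv ℝ (fun x => chO χ b x • v x) x‖ ≤ ‖‖fderiv ℝ v x‖ + K * ‖v x‖‖
          rw [Real.norm_of_nonneg k1, h.fderiv_prod hv]
          refine (norm_add_le _ _).trans (add_le_add ?_ ?_)
          · rw [norm_smul, Real.norm_of_nonneg (h.chO_nonneg x)]
            exact mul_le_of_le_one_left (norm_nonneg _) (h.chO_le x)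
          · rw [ContinuousLinearMap.norm_smulRight_apply]
            exact mul_le_mul_of_nonneg_right (hK x hx) (norm_nonneg _)
      _ ≤ eLpNorm (fun x => ‖fderiv ℝ v x‖) p (volume.restrict Ω)
          + eLpNorm (fun x => K * ‖v x‖) p (volume.restrict Ω) :=
        eLpNorm_add_le hdv.norm.aestronglyMeasurable
          (continuous_const.mul hv.continuous.norm).aestronglyMeasurable hp
      _ = _ := by
        congr 1
        · exact eLpNorm_norm _
        · have e4 : (fun x => K * ‖v x‖) = K • fun x => ‖v x‖ := rfl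
          rw [e4, eLpNorm_const_smul, eLpNorm_norm, Real.enorm_eq_ofReal (by linarith)]
  rw [e1]
  unfold NO
  have f1 := m1.2.ne
  have f2 := m2.2.ne
  have e5 := ENNReal.toReal_mono (ENNReal.add_ne_top.2 ⟨f1, ENNReal.mul_ne_top
    ENNReal.ofReal_ne_top f2⟩) e3
  rw [ENNReal.toReal_add f1 (ENNReal.mul_ne_top ENNReal.ofReal_ne_top f2), ENNReal.toReal_mul,
    ENNReal.toReal_ofReal (by linarith)] at e5
  refine e5.trans ?_
  unfold W1 NO
  have n1 : 0 ≤ (eLpNorm (fderiv ℝ v) p (volume.restrict Ω)).toReal := ENNReal.toReal_nonneg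
  nlinarith

end

end Pool.Agent.V1183.DL
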