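import Pool.Agent.H459R3.NS.Defs

/-!
The Navier-Stokes equations in a bounded open set with zero boundary values and additional terms of
lower order: definitions.
-/

open MeasureTheory Set
open scoped ContDiff ENNReal

set_option autoImplicit false

namespace Pool.Agent.V1183.DL

open H459R3.NS

/-- The scalar product `∫ u · v` over `Ω`. -/
noncomputable def dotO (Ω : Set V) (u v : V → V) : ℝ := ∑ i, ∫ x in Ω, u x i * v x i

/-- The norm in `L^p(Ω)`. -/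
noncomputable def NO {E : Type*} [NormedAddCommGroup E] (Ω : Set V) (p : ℝ≥0∞) (v : V → E) : ℝ :=
  (eLpNorm v p (volume.restrict Ω)).toReal

/-- The norm in `W^{1,p}(Ω)`. -/
noncomputable def W1 (Ω : Set V) (p : ℝ≥0∞) (v : V → V) : ℝ := NO Ω p v + NO Ω p (fderiv ℝ v)

/-- The linear operator of lower order, acting on the smooth fields on `ℝ³`: `D` is linear,
symmetric, nonnegative and of order `1 + a`, with constant `δ`, and local to the set `B`. -/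
structure LowerD (a δ : ℝ) (Ω B : Set V) (D : (V → V) → V → V) : Prop where
  D_smooth : ∀ v, ContDiff ℝ ∞ v → ContDiff ℝ ∞ (D v)
  D_linear : ∀ (c : ℝ) (u v : V → V), ContDiff ℝ ∞ u → ContDiff ℝ ∞ v →
    D (c • u + v) = c • D u + D v
  D_symm : ∀ v w, ContDiff ℝ ∞ v → ContDiff ℝ ∞ w → dotO Ω (D v) w = dotO Ω v (D w)
  D_nonneg : ∀ v, ContDiff ℝ ∞ v → 0 ≤ dotO Ω (D v) v
  D_order : ∀ p q : ℝ≥0∞, p⁻¹ + q⁻¹ = 1 → ∀ v w, ContDiff ℝ ∞ v → ContDiff ℝ ∞ w →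
    |dotO Ω (D v) w| ≤ δ * ((NO Ω p v ^ ((1 - a) / 2) * W1 Ω p v ^ ((1 + a) / 2)) *
      (NO Ω q w ^ ((1 - a) / 2) * W1 Ω q w ^ ((1 + a) / 2)))
  D_local : ∀ v w, ContDiff ℝ ∞ v → ContDiff ℝ ∞ w → (∀ x ∈ B, v x = w x) → D v = D w
  D_supp : ∀ v, ContDiff ℝ ∞ v → ∀ x ∉ B, D v x = 0

/-- The bilinear operator of lower order, acting on the smooth fields on `ℝ³`: `G` is bilinear,
energy-neutral and of order `s` in its second argument and `0` in its first, with constant `δ`, and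
local to the set `B`. -/
structure LowerG (s δ : ℝ) (Ω B : Set V) (G : (V → V) → (V → V) → V → V) : Prop where
  G_smooth : ∀ u v, ContDiff ℝ ∞ u → ContDiff ℝ ∞ v → ContDiff ℝ ∞ (G u v)
  G_left : ∀ (c : ℝ) (u u' v : V → V), ContDiff ℝ ∞ u → ContDiff ℝ ∞ u' → ContDiff ℝ ∞ v →
    G (c • u + u') v = c • G u v + G u' v
  G_right : ∀ (c : ℝ) (u v v' : V → V), ContDiff ℝ ∞ u → ContDiff ℝ ∞ v → ContDiff ℝ ∞ v' →
    G u (c • v + v') = c • G u v + G u v'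
  G_neutral : ∀ v, ContDiff ℝ ∞ v → dotO Ω (G v v) v = 0
  G_order : ∀ p q r : ℝ≥0∞, p⁻¹ + q⁻¹ + r⁻¹ = 1 → ∀ u v w, ContDiff ℝ ∞ u → ContDiff ℝ ∞ v →
    ContDiff ℝ ∞ w →
    |dotO Ω (G u v) w| ≤ δ * (NO Ω p u * (NO Ω q v ^ (1 - s) * W1 Ω q v ^ s) * NO Ω r w)
  G_local : ∀ u v u' v', ContDiff ℝ ∞ u → ContDiff ℝ ∞ v → ContDiff ℝ ∞ u' → ContDiff ℝ ∞ v' →
    (∀ x ∈ B, u x = u' x) → (∀ x ∈ B, v x = v' x) → G u v = G u' v'
  G_supp : ∀ u v, ContDiff ℝ ∞ u → ContDiff ℝ ∞ v → ∀ x ∉ B, G u v x = 0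

/-- The operators of lower order: `D` is of order `1 + a` and `G` of order `s`. -/
structure LowerO (s a δ : ℝ) (Ω B : Set V) (D : (V → V) → V → V)
    (G : (V → V) → (V → V) → V → V) : Prop extends LowerD a δ Ω B D, LowerG s δ Ω B G

/-- `(u, p)` is a smooth solution in `Ω` on the time interval `[0, T)` of
`∂ₜ u + (u · ∇) u + ∇ p + G(u, u) = ν (Δ u - D u)`, `div u = 0`, with zero boundary values. The
functions `u` and `p` are defined and smooth on `[0, T) × ℝ³`, but the equations are only required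
in `Ω` (smoothness up to the boundary). -/
structure DSol (ν T : ℝ) (Ω : Set V) (D : (V → V) → V → V) (G : (V → V) → (V → V) → V → V)
    (u : ℝ → V → V) (p : ℝ → V → ℝ) : Prop where
  smooth_u : ContDiffOn ℝ ∞ (fun z : ℝ × V => u z.1 z.2) (Ico 0 T ×ˢ univ)
  smooth_p : ContDiffOn ℝ ∞ (fun z : ℝ × V => p z.1 z.2) (Ico 0 T ×ˢ univ)
  bdry : ∀ t ∈ Ico 0 T, ∀ x ∈ frontier Ω, u t x = 0
  divfree : ∀ t ∈ Ico 0 T, ∀ x ∈ Ω, ∑ i, pd i (fun y => u t y i) x = 0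
  momentum : ∀ t ∈ Ioo 0 T, ∀ x ∈ Ω, ∀ i,
    deriv (fun s => u s x i) t + ∑ j, u t x j * pd j (fun y => u t y i) x + pd i (p t) x
      + G (u t) (u t) x i = ν * (∑ j, pd j (pd j (fun y => u t y i)) x - D (u t) x i)

end Pool.Agent.V1183.DL
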