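import Pool.Agent.V1183.DL.Ibp

/-!
Smooth fields in a bounded open set: derivatives, norms, bounds.
-/

open MeasureTheory Set Filter Topology
open scoped ContDiff ENNReal

set_option autoImplicit false

namespace Pool.Agent.V1183.DL

open H459R3.NS

variable {Ω : Set V}

theorem young {a g K s : ℝ} (ha : 0 ≤ a) (hg : 0 ≤ g) (hK : 1 ≤ K) (hs0 : 0 ≤ s) (hs1 : s ≤ 1) :
    a ^ (1 - s) * g ^ s * a ≤ K * a ^ 2 + K⁻¹ * g ^ 2 := by
  have hK0 : 0 < K := by linarith
  rcases le_or_gt g (K * a) with h | h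
  · have h1 : g ^ s ≤ K * a ^ s := by
      calc g ^ s ≤ (K * a) ^ s := Real.rpow_le_rpow hg h hs0
        _ = K ^ s * a ^ s := Real.mul_rpow hK0.le ha
        _ ≤ K * a ^ s := by
          have : K ^ s ≤ K ^ (1 : ℝ) := Real.rpow_le_rpow_of_exponent_le hK hs1
          rw [Real.rpow_one] at this
          gcongr
    have h2 : a ^ (1 - s) * a ^ s ≤ a := by
      rcases ha.eq_or_lt with h0 | h0
      · rw [← h0]
        rcases hs0.eq_or_lt with h3 | h3
        · rw [← h3]; simp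
        · rw [Real.zero_rpow h3.ne', mul_zero]
      · rw [← Real.rpow_add h0]
        simp
    have h3 : 0 ≤ K⁻¹ * g ^ 2 := by positivity
    calc a ^ (1 - s) * g ^ s * a ≤ a ^ (1 - s) * (K * a ^ s) * a := by gcongr
      _ = K * ((a ^ (1 - s) * a ^ s) * a) := by ring
      _ ≤ K * (a * a) := by gcongr
      _ ≤ K * a ^ 2 + K⁻¹ * g ^ 2 := by rw [sq]; linarith
  · have h0 : 0 < g := lt_of_le_of_lt (by positivity) h
    have h1 : a ≤ g / K := by
      rw [le_div_iff₀ hK0]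
      linarith
    have h1' : a ≤ g := by
      refine h1.trans (div_le_self hg hK)
    have h2 : a ^ (1 - s) ≤ g ^ (1 - s) := Real.rpow_le_rpow ha h1' (by linarith)
    have h3 : g ^ (1 - s) * g ^ s = g := by
      rw [← Real.rpow_add h0]; simp
    have h4 : 0 ≤ K * a ^ 2 := by positivity
    calc a ^ (1 - s) * g ^ s * a ≤ g ^ (1 - s) * g ^ s * (g / K) := by gcongr
      _ = K⁻¹ * g ^ 2 := by rw [h3]; field_simp
      _ ≤ _ := by linarith

theorem one_le_inf : (1 : WithTop ℕ∞) ≤ ((⊤ : ℕ∞) : WithTop ℕ∞) := by exact_mod_cast le_top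

theorem sm_pd {f : V → ℝ} (hf : ContDiff ℝ ∞ f) (j : Fin 3) : ContDiff ℝ ∞ (pd j f) := by
  unfold pd
  exact (hf.fderiv_right (m := ∞) (by simp)).clm_apply contDiff_const

theorem sm_c {v : V → V} (hv : ContDiff ℝ ∞ v) (i : Fin 3) : ContDiff ℝ ∞ (fun y => v y i) :=
  contDiff_pi.1 hv i

theorem c_of {v : V → V} (hv : ContDiff ℝ ∞ v) (i : Fin 3) : Continuous (fun y => v y i) :=
  (sm_c hv i).continuous

theorem pd_lin {f g : V → ℝ} (hf : ContDiff ℝ ∞ f) (hg : ContDiff ℝ ∞ g) (c : ℝ) (j : Fin 3)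
    (x : V) : pd j (fun y => c * f y + g y) x = c * pd j f x + pd j g x := by
  unfold pd
  have h1 := ((hf.differentiable (by simp)) x).hasFDerivAt
  have h2 := ((hg.differentiable (by simp)) x).hasFDerivAt
  have h3 : HasFDerivAt (fun y => c * f y + g y) (c • fderiv ℝ f x + fderiv ℝ g x) x :=
    (h1.const_mul c).add h2
  rw [h3.fderiv]
  rfl

theorem pd_sub' {f g : V → ℝ} (hf : ContDiff ℝ ∞ f) (hg : ContDiff ℝ ∞ g) (j : Fin 3)
    (x : V) : pd j (fun y => f y - g y) x = pd j f x - pd j g x := by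
  unfold pd
  have h1 := ((hf.differentiable (by simp)) x).hasFDerivAt
  have h2 := ((hg.differentiable (by simp)) x).hasFDerivAt
  have h3 : HasFDerivAt (fun y => f y - g y) (fderiv ℝ f x - fderiv ℝ g x) x := h1.sub h2
  rw [h3.fderiv]
  rfl

theorem pd_mul' {f g : V → ℝ} (hf : ContDiff ℝ ∞ f) (hg : ContDiff ℝ ∞ g) (j : Fin 3)
    (x : V) : pd j (fun y => f y * g y) x = pd j f x * g x + f x * pd j g x := by
  unfold pd
  have h1 := ((hf.differentiable (by simp)) x).hasFDerivAt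
  have h2 := ((hg.differentiable (by simp)) x).hasFDerivAt
  have h3 : HasFDerivAt (fun y => f y * g y) (f x • fderiv ℝ g x + g x • fderiv ℝ f x) x :=
    h1.mul h2
  rw [h3.fderiv]
  show f x * fderiv ℝ g x (Pi.single j 1) + g x * fderiv ℝ f x (Pi.single j 1) = _
  ring

theorem intM {f g : V → ℝ} (hb : Bornology.IsBounded Ω) (hf : Continuous f) (hg : Continuous g) :
    IntegrableOn (fun x => f x * g x) Ω := intOn hb (hf.mul hg)

theorem fin_Ω (hb : Bornology.IsBounded Ω) : IsFiniteMeasure (volume.restrict Ω : Measure V) :=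
  ⟨by rw [Measure.restrict_apply_univ]; exact hb.measure_lt_top⟩

theorem bd_cont {E : Type*} [NormedAddCommGroup E] {v : V → E} (hb : Bornology.IsBounded Ω)
    (hv : Continuous v) : ∃ C, ∀ x ∈ Ω, ‖v x‖ ≤ C := by
  obtain ⟨C, hC⟩ := hb.isCompact_closure.exists_bound_of_continuousOn hv.continuousOn
  exact ⟨C, fun x hx => hC x (subset_closure hx)⟩

theorem memO {E : Type*} [NormedAddCommGroup E] [SecondCountableTopologyEither V E] {v : V → E}
    (hΩ : IsOpen Ω) (hb : Bornology.IsBounded Ω) (hv : Continuous v) (p : ℝ≥0∞) :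
    MemLp v p (volume.restrict Ω) := by
  have := fin_Ω hb
  obtain ⟨C, hC⟩ := bd_cont hb hv
  exact MemLp.of_bound hv.aestronglyMeasurable C
    ((ae_restrict_iff' hΩ.measurableSet).2 (Eventually.of_forall hC))

theorem NO_nonneg {E : Type*} [NormedAddCommGroup E] (p : ℝ≥0∞) (v : V → E) : 0 ≤ NO Ω p v :=
  ENNReal.toReal_nonneg

theorem W1_nonneg (p : ℝ≥0∞) (v : V → V) : 0 ≤ W1 Ω p v := add_nonneg (NO_nonneg _ _) (NO_nonneg _ _)

theorem NO_top_le {E : Type*} [NormedAddCommGroup E] {v : V → E} (hΩ : IsOpen Ω) {M : ℝ}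
    (hM0 : 0 ≤ M) (hM : ∀ x ∈ Ω, ‖v x‖ ≤ M) : NO Ω ⊤ v ≤ M := by
  unfold NO
  have h1 : eLpNorm v ⊤ (volume.restrict Ω) ≤ ENNReal.ofReal M := by
    rw [eLpNorm_exponent_top]
    exact eLpNormEssSup_le_of_ae_bound
      ((ae_restrict_iff' hΩ.measurableSet).2 (Filter.Eventually.of_forall fun x hx => hM x hx))
  have h2 := ENNReal.toReal_mono ENNReal.ofReal_ne_top h1
  rwa [ENNReal.toReal_ofReal hM0] at h2

theorem NO_two_sq {E : Type*} [NormedAddCommGroup E] [SecondCountableTopologyEither V E]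
    {v : V → E} (hΩ : IsOpen Ω) (hb : Bornology.IsBounded Ω) (hv : Continuous v) :
    NO Ω 2 v ^ 2 = ∫ x in Ω, ‖v x‖ ^ 2 := by
  unfold NO
  rw [(memO hΩ hb hv 2).eLpNorm_eq_integral_rpow_norm (by norm_num) (by norm_num)]
  have h0 : 0 ≤ ∫ x in Ω, ‖v x‖ ^ (2 : ℝ≥0∞).toReal := integral_nonneg fun x => by positivity
  rw [ENNReal.toReal_ofReal (by positivity)]
  have e : (2 : ℝ≥0∞).toReal = 2 := by norm_num
  rw [e] at h0 ⊢
  rw [← Real.rpow_natCast, ← Real.rpow_mul h0]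
  norm_num

theorem NO2_le (hΩ : IsOpen Ω) (hb : Bornology.IsBounded Ω) {w : V → V} (hw : ContDiff ℝ ∞ w) :
    NO Ω 2 w ^ 2 ≤ dotO Ω w w := by
  rw [NO_two_sq hΩ hb hw.continuous]
  unfold dotO
  rw [← integral_finsetSum _ fun i _ => intM hb (c_of hw i) (c_of hw i)]
  refine setIntegral_mono (intOn hb (hw.continuous.norm.pow 2))
    (integrable_finsetSum _ fun i _ => intM hb (c_of hw i) (c_of hw i)) fun x => ?_
  show ‖w x‖ ^ 2 ≤ ∑ i, w x i * w x i
  have h1 : ‖w x‖ ≤ √(∑ i, w x i * w x i) := by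
    refine (pi_norm_le_iff_of_nonneg (Real.sqrt_nonneg _)).2 fun i => ?_
    rw [Real.norm_eq_abs]
    refine Real.abs_le_sqrt ?_
    rw [sq]
    exact Finset.single_le_sum (f := fun i => w x i * w x i) (fun j _ => mul_self_nonneg _)
      (Finset.mem_univ i)
  have h2 : 0 ≤ ∑ i, w x i * w x i := Finset.sum_nonneg fun j _ => mul_self_nonneg _
  calc ‖w x‖ ^ 2 ≤ √(∑ i, w x i * w x i) ^ 2 := by gcongr
    _ = _ := Real.sq_sqrt h2

/-- the square of the gradient -/
noncomputable def grO (Ω : Set V) (w : V → V) : ℝ :=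
  ∑ i, ∑ j, ∫ x in Ω, pd j (fun y => w y i) x * pd j (fun y => w y i) x

theorem grO_nonneg (w : V → V) : 0 ≤ grO Ω w :=
  Finset.sum_nonneg fun _ _ => Finset.sum_nonneg fun _ _ =>
    integral_nonneg fun _ => mul_self_nonneg _

theorem pd_comp {w : V → V} (hw : ContDiff ℝ ∞ w) (i j : Fin 3) (x : V) :
    pd j (fun y => w y i) x = (fderiv ℝ w x (Pi.single j 1)) i := by
  have hd : DifferentiableAt ℝ w x := (hw.differentiable (by simp)) x
  have h1 : HasFDerivAt (fun y => w y i)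
      ((ContinuousLinearMap.proj (R := ℝ) (φ := fun _ : Fin 3 => ℝ) i).comp (fderiv ℝ w x)) x :=
    (ContinuousLinearMap.proj (R := ℝ) (φ := fun _ : Fin 3 => ℝ) i).hasFDerivAt.comp x
      hd.hasFDerivAt
  unfold pd
  rw [h1.fderiv]
  rfl

theorem pd_le' {w : V → V} (hw : ContDiff ℝ ∞ w) (i j : Fin 3) (x : V) :
    |pd j (fun y => w y i) x| ≤ ‖fderiv ℝ w x‖ := by
  rw [pd_comp hw, ← Real.norm_eq_abs]
  refine (norm_le_pi_norm _ i).trans ((ContinuousLinearMap.le_opNorm _ _).trans ?_)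
  have : ‖(Pi.single j (1 : ℝ) : V)‖ ≤ 1 := by
    rw [pi_norm_le_iff_of_nonneg zero_le_one]
    intro k
    by_cases h : k = j
    · subst h; simp
    · simp [Pi.single_apply, h]
  exact mul_le_of_le_one_right (norm_nonneg _) this

theorem fd_norm_le {w : V → V} (hw : ContDiff ℝ ∞ w) (x : V) :
    ‖fderiv ℝ w x‖ ≤ ∑ j, ∑ i, |pd j (fun y => w y i) x| := by
  set g : Fin 3 → Fin 3 → ℝ := fun i j => pd j (fun y => w y i) x with hg
  have eg : ∀ i j, g i j = (fderiv ℝ w x (Pi.single j 1)) i := fun i j => pd_comp hw i j x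
  show ‖fderiv ℝ w x‖ ≤ ∑ j, ∑ i, |g i j|
  refine ContinuousLinearMap.opNorm_le_bound _
    (Finset.sum_nonneg fun _ _ => Finset.sum_nonneg fun _ _ => abs_nonneg _) fun z => ?_
  have ez : z = ∑ j, z j • (Pi.single j (1 : ℝ) : V) := by
    funext i
    simp [Finset.sum_apply, Pi.single_apply]
  have h2 : fderiv ℝ w x z = ∑ j, z j • fderiv ℝ w x (Pi.single j 1) := by
    conv_lhs => rw [ez]
    rw [map_sum]
    refine Finset.sum_congr rfl fun j _ => ?_
    rw [map_smul]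
  rw [h2, Finset.sum_mul]
  refine (norm_sum_le _ _).trans (Finset.sum_le_sum fun j _ => ?_)
  rw [norm_smul, mul_comm]
  have h3 : ‖fderiv ℝ w x (Pi.single j 1)‖ ≤ ∑ i, |g i j| := by
    refine (pi_norm_le_iff_of_nonneg (Finset.sum_nonneg fun _ _ => abs_nonneg _)).2 fun i => ?_
    rw [← eg, Real.norm_eq_abs]
    exact Finset.single_le_sum (f := fun i => |g i j|) (fun _ _ => abs_nonneg _)
      (Finset.mem_univ i)
  have h4 : ‖z j‖ ≤ ‖z‖ := norm_le_pi_norm z j
  gcongr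

theorem NO2_grad (hΩ : IsOpen Ω) (hb : Bornology.IsBounded Ω) {w : V → V}
    (hw : ContDiff ℝ ∞ w) : NO Ω 2 (fderiv ℝ w) ^ 2 ≤ 9 * grO Ω w := by
  have hc : Continuous (fderiv ℝ w) := hw.continuous_fderiv (by simp)
  rw [NO_two_sq hΩ hb hc]
  unfold grO
  have hcc : ∀ i j, Continuous fun x => pd j (fun y => w y i) x * pd j (fun y => w y i) x :=
    fun i j => ((sm_pd (sm_c hw i) j).continuous).mul (sm_pd (sm_c hw i) j).continuous
  have e : (∑ i, ∑ j, ∫ x in Ω, pd j (fun y => w y i) x * pd j (fun y => w y i) x)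
      = ∫ x in Ω, ∑ i, ∑ j, pd j (fun y => w y i) x * pd j (fun y => w y i) x := by
    rw [integral_finsetSum _ fun i _ => intOn hb (continuous_finsetSum _ fun j _ => hcc i j)]
    refine Finset.sum_congr rfl fun i _ => ?_
    rw [integral_finsetSum _ fun j _ => intOn hb (hcc i j)]
  rw [e, ← integral_const_mul]
  refine setIntegral_mono (intOn hb (hc.norm.pow 2))
    (intOn hb (continuous_const.mul (continuous_finsetSum _ fun i _ =>
      continuous_finsetSum _ fun j _ => hcc i j))) fun x => ?_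
  show ‖fderiv ℝ w x‖ ^ 2 ≤ 9 * ∑ i, ∑ j, pd j (fun y => w y i) x * pd j (fun y => w y i) x
  have h1 := fd_norm_le hw x
  set g : Fin 3 → Fin 3 → ℝ := fun i j => pd j (fun y => w y i) x with hg
  have h5 : (∑ j, ∑ i, |g i j|) ^ 2 ≤ 9 * ∑ i, ∑ j, g i j * g i j := by
    have e1 : ∑ j, ∑ i, |g i j| = ∑ q : Fin 3 × Fin 3, |g q.2 q.1| := by
      rw [Fintype.sum_prod_type]
    have e2 : ∑ i, ∑ j, g i j * g i j = ∑ q : Fin 3 × Fin 3, |g q.2 q.1| ^ 2 := by
      rw [Fintype.sum_prod_type, Finset.sum_comm]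
      refine Finset.sum_congr rfl fun i _ => Finset.sum_congr rfl fun j _ => ?_
      rw [sq_abs, sq]
    rw [e1, e2]
    have := sq_sum_le_card_mul_sum_sq (s := (Finset.univ : Finset (Fin 3 × Fin 3)))
      (f := fun q => |g q.2 q.1|)
    simpa using this
  calc ‖fderiv ℝ w x‖ ^ 2 ≤ (∑ j, ∑ i, |g i j|) ^ 2 := by gcongr
    _ ≤ _ := h5

theorem W12 (hΩ : IsOpen Ω) (hb : Bornology.IsBounded Ω) {w : V → V} (hw : ContDiff ℝ ∞ w) :
    W1 Ω 2 w ^ 2 ≤ 2 * dotO Ω w w + 18 * grO Ω w := by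
  have h1 := NO2_le hΩ hb hw
  have h2 := NO2_grad hΩ hb hw
  unfold W1
  nlinarith [sq_nonneg (NO Ω 2 w - NO Ω 2 (fderiv ℝ w))]

theorem NO_le_W1 (p : ℝ≥0∞) (w : V → V) : NO Ω p w ≤ W1 Ω p w :=
  le_add_of_nonneg_right (NO_nonneg _ _)

/-- bounds for the operators acting on a difference -/
theorem LowerO.dG {s a δ : ℝ} {B : Set V} {D : (V → V) → V → V}
    {G : (V → V) → (V → V) → V → V} (hL : LowerO s a δ Ω B D G) (hΩ : IsOpen Ω)
    (hb : Bornology.IsBounded Ω) (hs0 : 0 ≤ s) (hs1 : s ≤ 1) (hδ : 0 ≤ δ) {u v w : V → V}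
    (hu : ContDiff ℝ ∞ u) (hv : ContDiff ℝ ∞ v) (hw : ContDiff ℝ ∞ w) {M K : ℝ} (hM : 1 ≤ M)
    (hK : 1 ≤ K) (b1 : ∀ x ∈ Ω, ‖u x‖ ≤ M) (b2 : ∀ x ∈ Ω, ‖fderiv ℝ u x‖ ≤ M)
    (b3 : ∀ x ∈ Ω, ‖v x‖ ≤ M) :
    |dotO Ω (G w u) w| + |dotO Ω (G v w) w| ≤
      (2 * δ * M + δ * M * (K + 2)) * dotO Ω w w + δ * M * K⁻¹ * (18 * grO Ω w) := by
  have hM0 : 0 ≤ M := by linarith
  have c1 := NO_top_le hΩ hM0 b1
  have c2 := NO_top_le hΩ hM0 b2
  have c3 := NO_top_le hΩ hM0 b3
  have n1 : 0 ≤ NO Ω ⊤ u := NO_nonneg ⊤ u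
  have n2 : 0 ≤ NO Ω ⊤ (fderiv ℝ u) := NO_nonneg ⊤ _
  have n3 : 0 ≤ NO Ω ⊤ v := NO_nonneg ⊤ v
  have n4 : 0 ≤ NO Ω 2 w := NO_nonneg 2 w
  have n5 : 0 ≤ W1 Ω 2 w := W1_nonneg 2 w
  have w2 := NO2_le hΩ hb hw
  have g2 := W12 hΩ hb hw
  have h12 : (2 : ℝ≥0∞)⁻¹ + (2 : ℝ≥0∞)⁻¹ = 1 := ENNReal.inv_two_add_inv_two
  have k1 := hL.G_order 2 ⊤ 2 (by rw [ENNReal.inv_top, add_zero]; exact h12) w u w hw hu hw
  have k2 := hL.G_order ⊤ 2 2 (by rw [ENNReal.inv_top, zero_add]; exact h12) v w w hv hw hw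
  have m0 : W1 Ω ⊤ u ≤ 2 * M := by unfold W1; linarith
  have m00 : 0 ≤ W1 Ω ⊤ u := W1_nonneg ⊤ u
  have m1 : NO Ω ⊤ u ^ (1 - s) * W1 Ω ⊤ u ^ s ≤ 2 * M := by
    calc NO Ω ⊤ u ^ (1 - s) * W1 Ω ⊤ u ^ s ≤ (2 * M) ^ (1 - s) * (2 * M) ^ s := by
          gcongr
          linarith
      _ = 2 * M := by
        rw [← Real.rpow_add (by linarith)]
        simp
  have d0 : 0 ≤ dotO Ω w w := (sq_nonneg _).trans w2
  have gr0 : 0 ≤ grO Ω w := grO_nonneg w
  have e1 : |dotO Ω (G w u) w| ≤ 2 * δ * M * dotO Ω w w := by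
    calc |dotO Ω (G w u) w| ≤ _ := k1
      _ ≤ δ * (NO Ω 2 w * (2 * M) * NO Ω 2 w) := by gcongr
      _ = 2 * δ * M * NO Ω 2 w ^ 2 := by ring
      _ ≤ 2 * δ * M * dotO Ω w w := by gcongr
  have y := young n4 n5 hK hs0 hs1
  have e2 : |dotO Ω (G v w) w| ≤ δ * M * ((K + 2) * dotO Ω w w + K⁻¹ * (18 * grO Ω w)) := by
    have hKi : 0 ≤ K⁻¹ := by positivity
    have hKi1 : K⁻¹ ≤ 1 := inv_le_one_of_one_le₀ hK
    calc |dotO Ω (G v w) w| ≤ _ := k2
      _ = δ * (NO Ω ⊤ v * (NO Ω 2 w ^ (1 - s) * W1 Ω 2 w ^ s * NO Ω 2 w)) := by ring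
      _ ≤ δ * (M * (K * NO Ω 2 w ^ 2 + K⁻¹ * W1 Ω 2 w ^ 2)) := by gcongr
      _ ≤ δ * (M * (K * dotO Ω w w + K⁻¹ * (2 * dotO Ω w w + 18 * grO Ω w))) := by gcongr
      _ = δ * M * (K * dotO Ω w w + K⁻¹ * (2 * dotO Ω w w) + K⁻¹ * (18 * grO Ω w)) := by ring
      _ ≤ δ * M * (K * dotO Ω w w + 1 * (2 * dotO Ω w w) + K⁻¹ * (18 * grO Ω w)) := by gcongr
      _ = _ := by ring
  calc _ ≤ _ := add_le_add e1 e2
    _ = _ := by ring

/-- the convection term of a difference -/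
theorem conv_diffO (hΩ : IsOpen Ω) (hb : Bornology.IsBounded Ω) {u v w : V → V}
    (hu : ContDiff ℝ ∞ u) (hv : ContDiff ℝ ∞ v) (hw : ContDiff ℝ ∞ w)
    (hw0 : ∀ x ∈ frontier Ω, w x = 0)
    (hdiv : ∀ x ∈ Ω, ∑ i, pd i (fun y => v y i) x = 0) {M : ℝ} (hM : 1 ≤ M)
    (b2 : ∀ x ∈ Ω, ‖fderiv ℝ u x‖ ≤ M) :
    |dotO Ω (fun x i => (∑ j, w x j * pd j (fun y => u y i) x)
      + ∑ j, v x j * pd j (fun y => w y i) x) w| ≤ 3 * M * dotO Ω w w := by
  have hM0 : 0 ≤ M := by linarith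
  have s1 : ∀ i, Continuous (fun x => (∑ j, w x j * pd j (fun y => u y i) x) * w x i) := fun i =>
    (continuous_finsetSum _ fun j _ => (c_of hw j).mul (sm_pd (sm_c hu i) j).continuous).mul
      (c_of hw i)
  have s2 : ∀ i, Continuous (fun x => (∑ j, v x j * pd j (fun y => w y i) x) * w x i) := fun i =>
    (continuous_finsetSum _ fun j _ => (c_of hv j).mul (sm_pd (sm_c hw i) j).continuous).mul
      (c_of hw i)
  have e : dotO Ω (fun x i => (∑ j, w x j * pd j (fun y => u y i) x)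
      + ∑ j, v x j * pd j (fun y => w y i) x) w
      = (∑ i, ∫ x in Ω, (∑ j, w x j * pd j (fun y => u y i) x) * w x i)
        + ∑ i, ∫ x in Ω, (∑ j, v x j * pd j (fun y => w y i) x) * w x i := by
    unfold dotO
    rw [← Finset.sum_add_distrib]
    refine Finset.sum_congr rfl fun i _ => ?_
    rw [← integral_add (intOn hb (s1 i)) (intOn hb (s2 i))]
    congr 1
    funext x
    ring
  have e2 : ∑ i, ∫ x in Ω, (∑ j, v x j * pd j (fun y => w y i) x) * w x i = 0 := by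
    refine Finset.sum_eq_zero fun i _ => ?_
    -- integration by parts in each direction
    have hj : ∀ j, ∫ x in Ω, w x i * pd j (fun y => v y j * w y i) x
        = -∫ x in Ω, pd j (fun y => w y i) x * (v x j * w x i) := fun j =>
      ibp hΩ hb ((sm_c hw i).of_le one_le_inf)
        (((sm_c hv j).mul (sm_c hw i)).of_le one_le_inf)
        (fun x hx => by rw [hw0 x hx]; rfl) j
    have c1 : ∀ j, Continuous fun x => w x i * pd j (fun y => v y j * w y i) x := fun j =>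
      (c_of hw i).mul (sm_pd ((sm_c hv j).mul (sm_c hw i)) j).continuous
    have c2 : ∀ j, Continuous fun x => pd j (fun y => w y i) x * (v x j * w x i) := fun j =>
      (sm_pd (sm_c hw i) j).continuous.mul ((c_of hv j).mul (c_of hw i))
    have k1 : ∑ j, ∫ x in Ω, w x i * pd j (fun y => v y j * w y i) x
        = ∫ x in Ω, ∑ j, w x i * pd j (fun y => v y j * w y i) x := by
      rw [integral_finsetSum _ fun j _ => intOn hb (c1 j)]
    have k2 : ∑ j, ∫ x in Ω, pd j (fun y => w y i) x * (v x j * w x i)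
        = ∫ x in Ω, ∑ j, pd j (fun y => w y i) x * (v x j * w x i) := by
      rw [integral_finsetSum _ fun j _ => intOn hb (c2 j)]
    have k3 : ∫ x in Ω, ∑ j, w x i * pd j (fun y => v y j * w y i) x
        = ∫ x in Ω, ∑ j, pd j (fun y => w y i) x * (v x j * w x i) := by
      refine setIntegral_congr_fun hΩ.measurableSet fun x hx => ?_
      have h1 : ∀ j, w x i * pd j (fun y => v y j * w y i) x
          = w x i * w x i * pd j (fun y => v y j) x
            + pd j (fun y => w y i) x * (v x j * w x i) := by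
        intro j
        rw [pd_mul' (sm_c hv j) (sm_c hw i)]
        ring
      simp_rw [h1]
      rw [Finset.sum_add_distrib, ← Finset.mul_sum, hdiv x hx, mul_zero, zero_add]
    have k4 : ∫ x in Ω, ∑ j, pd j (fun y => w y i) x * (v x j * w x i) = 0 := by
      have : (∑ j, ∫ x in Ω, w x i * pd j (fun y => v y j * w y i) x)
          = -∑ j, ∫ x in Ω, pd j (fun y => w y i) x * (v x j * w x i) := by
        rw [← Finset.sum_neg_distrib]
        exact Finset.sum_congr rfl fun j _ => hj j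
      rw [k1, k2, k3] at this
      linarith
    rw [← k4]
    congr 1
    funext x
    rw [Finset.sum_mul]
    exact Finset.sum_congr rfl fun j _ => by ring
  rw [e, e2, add_zero]
  rw [← integral_finsetSum _ fun i _ => intOn hb (s1 i)]
  have hb' : ∀ x ∈ Ω, |∑ i, (∑ j, w x j * pd j (fun y => u y i) x) * w x i|
      ≤ 3 * M * ∑ i, w x i * w x i := by
    intro x hx
    have hp : ∀ i j, |w x j * pd j (fun y => u y i) x * w x i|
        ≤ M * ((w x j * w x j + w x i * w x i) / 2) := by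
      intro i j
      have h1 : |pd j (fun y => u y i) x| ≤ M := (pd_le' hu i j x).trans (b2 x hx)
      have h2 : |w x j| * |w x i| ≤ (w x j * w x j + w x i * w x i) / 2 := by
        have := sq_nonneg (|w x j| - |w x i|)
        have e1 := abs_mul_abs_self (w x j)
        have e2 := abs_mul_abs_self (w x i)
        nlinarith
      calc |w x j * pd j (fun y => u y i) x * w x i|
          = |pd j (fun y => u y i) x| * (|w x j| * |w x i|) := by rw [abs_mul, abs_mul]; ring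
        _ ≤ M * ((w x j * w x j + w x i * w x i) / 2) := by gcongr
    calc |∑ i, (∑ j, w x j * pd j (fun y => u y i) x) * w x i|
        ≤ ∑ i, ∑ j, |w x j * pd j (fun y => u y i) x * w x i| := by
          refine (Finset.abs_sum_le_sum_abs _ _).trans (Finset.sum_le_sum fun i _ => ?_)
          rw [Finset.sum_mul]
          exact Finset.abs_sum_le_sum_abs _ _
      _ ≤ ∑ i, ∑ j, M * ((w x j * w x j + w x i * w x i) / 2) :=
          Finset.sum_le_sum fun i _ => Finset.sum_le_sum fun j _ => hp i j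
      _ = 3 * M * ∑ i, w x i * w x i := by
          simp only [Fin.sum_univ_three]
          ring
  have hint : IntegrableOn (fun x => 3 * M * ∑ i, w x i * w x i) Ω :=
    intOn hb (continuous_const.mul (continuous_finsetSum _ fun i _ => (c_of hw i).mul (c_of hw i)))
  have h1 : ‖∫ x in Ω, ∑ i, (∑ j, w x j * pd j (fun y => u y i) x) * w x i‖
      ≤ ∫ x in Ω, 3 * M * ∑ i, w x i * w x i := by
    refine norm_integral_le_of_norm_le hint ?_
    exact (ae_restrict_iff' hΩ.measurableSet).2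
      (Filter.Eventually.of_forall fun x hx => hb' x hx)
  rw [Real.norm_eq_abs, integral_const_mul,
    integral_finsetSum _ fun i _ => intM hb (c_of hw i) (c_of hw i)] at h1
  exact h1

theorem dot_lapO (hΩ : IsOpen Ω) (hb : Bornology.IsBounded Ω) {w : V → V}
    (hw : ContDiff ℝ ∞ w) (hw0 : ∀ x ∈ frontier Ω, w x = 0) :
    dotO Ω (fun x i => lap (fun y => w y i) x) w = -grO Ω w := by
  unfold dotO grO
  rw [← Finset.sum_neg_distrib]
  refine Finset.sum_congr rfl fun i _ => ?_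
  have hj : ∀ j, ∫ x in Ω, w x i * pd j (pd j (fun y => w y i)) x
      = -∫ x in Ω, pd j (fun y => w y i) x * pd j (fun y => w y i) x := fun j =>
    ibp hΩ hb ((sm_c hw i).of_le one_le_inf) ((sm_pd (sm_c hw i) j).of_le one_le_inf)
      (fun x hx => by rw [hw0 x hx]; rfl) j
  rw [← Finset.sum_neg_distrib, ← Finset.sum_congr rfl fun j _ => hj j,
    ← integral_finsetSum _ fun j _ => intM hb (c_of hw i)
      (sm_pd (sm_pd (sm_c hw i) j) j).continuous]
  congr 1
  funext x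
  unfold lap
  rw [Finset.sum_mul]
  exact Finset.sum_congr rfl fun j _ => by ring

theorem dot_press (hΩ : IsOpen Ω) (hb : Bornology.IsBounded Ω) {w : V → V} {r : V → ℝ}
    (hw : ContDiff ℝ ∞ w) (hr : ContDiff ℝ ∞ r) (hw0 : ∀ x ∈ frontier Ω, w x = 0)
    (hdiv : ∀ x ∈ Ω, ∑ i, pd i (fun y => w y i) x = 0) :
    dotO Ω (fun x i => pd i r x) w = 0 := by
  unfold dotO
  have hj : ∀ i, ∫ x in Ω, pd i r x * w x i = -∫ x in Ω, pd i (fun y => w y i) x * r x := by
    intro i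
    rw [← ibp hΩ hb ((sm_c hw i).of_le one_le_inf) (hr.of_le one_le_inf)
      (fun x hx => by rw [hw0 x hx]; rfl) i]
    congr 1
    funext x
    ring
  rw [Finset.sum_congr rfl fun i _ => hj i, Finset.sum_neg_distrib,
    ← integral_finsetSum _ fun i _ => intM hb (sm_pd (sm_c hw i) i).continuous
      hr.continuous]
  have : ∫ x in Ω, ∑ i, pd i (fun y => w y i) x * r x = 0 := by
    rw [setIntegral_eq_zero_of_forall_eq_zero]
    intro x hx
    rw [← Finset.sum_mul, hdiv x hx, zero_mul]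
  rw [this, neg_zero]

end Pool.Agent.V1183.DL
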