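import Pool.Agent.V1183.DL.Def

/-!
Integration by parts in a bounded open set for functions which vanish on its boundary.
-/

open MeasureTheory Set Filter Topology
open scoped ContDiff ENNReal

set_option autoImplicit false

namespace Pool.Agent.V1183.DL

open H459R3.NS

/-- the zeros with a non-zero derivative are countable -/
theorem countable_zeros {φ : ℝ → ℝ} (hφ : Differentiable ℝ φ) :
    {t | φ t = 0 ∧ deriv φ t ≠ 0}.Countable := by
  set S := {t | φ t = 0 ∧ deriv φ t ≠ 0} with hS
  have hd : DiscreteTopology S := by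
    rw [discreteTopology_subtype_iff]
    rintro t ⟨ht, ht'⟩
    have h := (hφ t).hasDerivAt.eventually_ne (c := 0) ht'
    rw [← Filter.empty_mem_iff_bot, Filter.mem_inf_principal]
    filter_upwards [h] with s hs hsS
    exact hs hsS.1
  exact Set.countable_coe_iff.1 (TopologicalSpace.separableSpace_iff_countable.1 inferInstance)

theorem pd_hasDerivAt {f : V → ℝ} (hf : ContDiff ℝ 1 f) (j : Fin 3) (y : V) (t : ℝ) :
    HasDerivAt (fun t : ℝ => f (y + t • (Pi.single j (1 : ℝ) : V)))
      (pd j f (y + t • (Pi.single j (1 : ℝ) : V))) t := by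
  have h1 : HasDerivAt (fun t : ℝ => y + t • (Pi.single j (1 : ℝ) : V))
      (Pi.single j (1 : ℝ) : V) t := by
    have := ((hasDerivAt_id t).smul_const (Pi.single j (1 : ℝ) : V)).const_add y
    simpa using this
  exact ((hf.differentiable (by norm_num)) _).hasFDerivAt.comp_hasDerivAt t h1

theorem cont_pd {f : V → ℝ} (hf : ContDiff ℝ 1 f) (j : Fin 3) : Continuous (pd j f) := by
  unfold pd
  exact (hf.continuous_fderiv (by norm_num)).clm_apply continuous_const

/-- the derivative vanishes almost everywhere on the set of the zeros -/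
theorem ae_pd_zero {f : V → ℝ} (hf : ContDiff ℝ 1 f) (j : Fin 3) :
    ∀ᵐ x ∂(volume : Measure V), f x = 0 → pd j f x = 0 := by
  have hm : MeasurableSet {x : V | f x = 0 → pd j f x = 0} := by
    have e : {x : V | f x = 0 → pd j f x = 0} = {x | f x = 0}ᶜ ∪ {x | pd j f x = 0} := by
      ext x
      simp only [mem_setOf_eq, mem_union, mem_compl_iff]
      tauto
    rw [e]
    exact ((isClosed_singleton.preimage hf.continuous).measurableSet.compl).union
      (isClosed_singleton.preimage (cont_pd hf j)).measurableSet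
  refine ae_mem_of_ae_add_linearMap_mem
    (L := LinearMap.toSpanSingleton ℝ V (Pi.single j (1 : ℝ) : V)) (μ := volume) (ν := volume)
    hm ?_
  intro y
  have hd : Differentiable ℝ (fun t : ℝ => f (y + t • (Pi.single j (1 : ℝ) : V))) := fun t =>
    (pd_hasDerivAt hf j y t).differentiableAt
  have hc := countable_zeros hd
  filter_upwards [hc.ae_notMem volume] with t ht h0
  by_contra hcon
  refine ht ⟨h0, ?_⟩
  rw [(pd_hasDerivAt hf j y t).deriv]
  exact hcon

/-- the cut-off near `0` -/
noncomputable def hcut (s : ℝ) : ℝ := s * (1 - (⟨1, 2, by norm_num, by norm_num⟩ : ContDiffBump (0 : ℝ)) s)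

theorem hcut_smooth : ContDiff ℝ ∞ hcut := by
  unfold hcut
  exact contDiff_id.mul (contDiff_const.sub (ContDiffBump.contDiff _))

theorem hcut_zero {s : ℝ} (hs : |s| ≤ 1) : hcut s = 0 := by
  unfold hcut
  rw [ContDiffBump.one_of_mem_closedBall _ (by
    rw [Metric.mem_closedBall, Real.dist_eq, sub_zero]; exact hs)]
  ring

theorem hcut_big {s : ℝ} (hs : 2 ≤ |s|) : hcut s = s := by
  unfold hcut
  rw [ContDiffBump.zero_of_le_dist _ (by
    rw [Real.dist_eq, sub_zero]; exact hs)]
  ring

theorem hcut_abs (s : ℝ) : |hcut s| ≤ |s| := by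
  unfold hcut
  rw [abs_mul]
  have h1 := ContDiffBump.le_one (⟨1, 2, by norm_num, by norm_num⟩ : ContDiffBump (0 : ℝ)) (x := s)
  have h0 := ContDiffBump.nonneg (⟨1, 2, by norm_num, by norm_num⟩ : ContDiffBump (0 : ℝ)) (x := s)
  have : |1 - (⟨1, 2, by norm_num, by norm_num⟩ : ContDiffBump (0 : ℝ)) s| ≤ 1 := by
    rw [abs_le]
    constructor <;> linarith
  exact mul_le_of_le_one_right (abs_nonneg _) this

theorem hcut_deriv_big {s : ℝ} (hs : 2 < |s|) : deriv hcut s = 1 := by
  have h : hcut =ᶠ[𝓝 s] id := by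
    have : {x : ℝ | 2 < |x|} ∈ 𝓝 s := (isOpen_lt continuous_const continuous_abs).mem_nhds hs
    filter_upwards [this] with x hx
    exact hcut_big (le_of_lt hx)
  rw [h.deriv_eq, deriv_id]

theorem hcut_deriv_bdd : ∃ C : ℝ, 0 ≤ C ∧ ∀ s, |deriv hcut s| ≤ C := by
  have hc : Continuous (deriv hcut) := hcut_smooth.continuous_deriv (by simp)
  obtain ⟨C, hC⟩ := (isCompact_Icc (a := (-2 : ℝ)) (b := 2)).exists_bound_of_continuousOn
    hc.continuousOn
  refine ⟨max C 1, by positivity, fun s => ?_⟩
  by_cases h : 2 < |s|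
  · rw [hcut_deriv_big h, abs_one]
    exact le_max_right _ _
  · push Not at h
    have := hC s (abs_le.1 h)
    exact this.trans (le_max_left _ _)

variable {Ω : Set V}

theorem intOn {f : V → ℝ} (hb : Bornology.IsBounded Ω) (hf : Continuous f) :
    IntegrableOn f Ω := by
  have hK : IsCompact (closure Ω) := hb.isCompact_closure
  exact (hf.continuousOn.integrableOn_compact hK).mono_set subset_closure

/-- the truncated function, extended by zero -/
noncomputable def trf (Ω : Set V) (f : V → ℝ) (ε : ℝ) : V → ℝ := Ω.indicator fun x => ε * hcut (f x / ε)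

theorem trf_near {f : V → ℝ} (hf : Continuous f) (h0 : ∀ x ∈ frontier Ω, f x = 0) {ε : ℝ}
    (hε : 0 < ε) {x : V} (hx : x ∉ Ω) : trf Ω f ε =ᶠ[𝓝 x] fun _ => 0 := by
  by_cases hxc : x ∈ closure Ω
  · have hxf : x ∈ frontier Ω := ⟨hxc, fun h => hx (interior_subset h)⟩
    have hfx := h0 x hxf
    have h1 : {y | |f y| < ε} ∈ 𝓝 x := by
      refine (isOpen_lt hf.abs continuous_const).mem_nhds ?_
      simp only [mem_setOf_eq, hfx, abs_zero]
      exact hε
    filter_upwards [h1] with y hy
    unfold trf
    by_cases hyΩ : y ∈ Ω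
    · rw [indicator_of_mem hyΩ, hcut_zero, mul_zero]
      rw [abs_div, abs_of_pos hε, div_le_one hε]
      exact le_of_lt hy
    · rw [indicator_of_notMem hyΩ]
  · have h1 : (closure Ω)ᶜ ∈ 𝓝 x := isClosed_closure.isOpen_compl.mem_nhds hxc
    filter_upwards [h1] with y hy
    unfold trf
    rw [indicator_of_notMem fun h => hy (subset_closure h)]

theorem trf_in (hΩ : IsOpen Ω) {f : V → ℝ} {ε : ℝ} {x : V} (hx : x ∈ Ω) :
    trf Ω f ε =ᶠ[𝓝 x] fun y => ε * hcut (f y / ε) := by
  filter_upwards [hΩ.mem_nhds hx] with y hy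
  unfold trf
  rw [indicator_of_mem hy]

theorem trf_contDiff (hΩ : IsOpen Ω) {f : V → ℝ} (hf : ContDiff ℝ 1 f)
    (h0 : ∀ x ∈ frontier Ω, f x = 0) {ε : ℝ} (hε : 0 < ε) : ContDiff ℝ 1 (trf Ω f ε) := by
  rw [contDiff_iff_contDiffAt]
  intro x
  by_cases hx : x ∈ Ω
  · have h1 : ContDiff ℝ 1 fun y => ε * hcut (f y / ε) :=
      contDiff_const.mul ((hcut_smooth.of_le (by exact_mod_cast le_top)).comp (hf.div_const ε))
    exact h1.contDiffAt.congr_of_eventuallyEq (trf_in hΩ hx)
  · exact contDiffAt_const.congr_of_eventuallyEq (trf_near hf.continuous h0 hε hx)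

theorem trf_pd (hΩ : IsOpen Ω) {f : V → ℝ} (hf : ContDiff ℝ 1 f)
    (h0 : ∀ x ∈ frontier Ω, f x = 0) {ε : ℝ} (hε : 0 < ε) (j : Fin 3) (x : V) :
    pd j (trf Ω f ε) x = Ω.indicator (fun x => deriv hcut (f x / ε) * pd j f x) x := by
  by_cases hx : x ∈ Ω
  · rw [indicator_of_mem hx]
    unfold pd
    rw [(trf_in hΩ hx).fderiv_eq]
    have h1 : HasFDerivAt f (fderiv ℝ f x) x := ((hf.differentiable (by norm_num)) x).hasFDerivAt
    have h2 : HasFDerivAt (fun y => f y / ε) (ε⁻¹ • fderiv ℝ f x) x := by
      have := h1.const_smul ε⁻¹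
      refine this.congr_of_eventuallyEq (Eventually.of_forall fun y => ?_)
      simp only [Pi.smul_apply, smul_eq_mul]
      rw [div_eq_inv_mul]
    have h3 : HasDerivAt hcut (deriv hcut (f x / ε)) ((fun y => f y / ε) x) :=
      ((hcut_smooth.differentiable (by simp)) _).hasDerivAt
    have h4 : HasFDerivAt (fun y => ε * hcut (f y / ε))
        (ε • (deriv hcut (f x / ε) • (ε⁻¹ • fderiv ℝ f x))) x :=
      (HasDerivAt.comp_hasFDerivAt (h₂ := hcut) x h3 h2).const_mul ε
    rw [h4.fderiv]
    show ε * (deriv hcut (f x / ε) * (ε⁻¹ * fderiv ℝ f x (Pi.single j 1)))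
      = deriv hcut (f x / ε) * fderiv ℝ f x (Pi.single j 1)
    field_simp
  · rw [indicator_of_notMem hx]
    unfold pd
    rw [(trf_near hf.continuous h0 hε hx).fderiv_eq]
    simp

theorem trf_comp (hb : Bornology.IsBounded Ω) (f : V → ℝ) (ε : ℝ) :
    HasCompactSupport (trf Ω f ε) := by
  refine HasCompactSupport.intro hb.isCompact_closure fun x hx => ?_
  unfold trf
  rw [indicator_of_notMem fun h => hx (subset_closure h)]

/-- integration by parts for the truncated function -/
theorem ibp_trf (hΩ : IsOpen Ω) (hb : Bornology.IsBounded Ω) {f g : V → ℝ} (hf : ContDiff ℝ 1 f)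
    (hg : ContDiff ℝ 1 g) (h0 : ∀ x ∈ frontier Ω, f x = 0) {ε : ℝ} (hε : 0 < ε) (j : Fin 3) :
    ∫ x in Ω, ε * hcut (f x / ε) * pd j g x
      = -∫ x in Ω, deriv hcut (f x / ε) * pd j f x * g x := by
  have hF := trf_contDiff hΩ hf h0 hε
  have hc := trf_comp hb f ε
  have key := integral_mul_fderiv_eq_neg_fderiv_mul_of_integrable (μ := (volume : Measure V))
    (f := trf Ω f ε) (g := g) (v := (Pi.single j (1 : ℝ) : V)) ?_ ?_ ?_
    (fun x _ => (hF.differentiable (by norm_num)) x) (fun x _ => (hg.differentiable (by norm_num)) x)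
  · have e1 : ∫ x, trf Ω f ε x * fderiv ℝ g x (Pi.single j (1 : ℝ))
        = ∫ x in Ω, ε * hcut (f x / ε) * pd j g x := by
      rw [← integral_indicator hΩ.measurableSet]
      congr 1
      funext x
      unfold trf
      by_cases hx : x ∈ Ω
      · rw [indicator_of_mem hx, indicator_of_mem hx]; rfl
      · rw [indicator_of_notMem hx, indicator_of_notMem hx, zero_mul]
    have e2 : ∫ x, fderiv ℝ (trf Ω f ε) x (Pi.single j (1 : ℝ)) * g x
        = ∫ x in Ω, deriv hcut (f x / ε) * pd j f x * g x := by
      rw [← integral_indicator hΩ.measurableSet]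
      congr 1
      funext x
      have h1 := trf_pd hΩ hf h0 hε j x
      unfold pd at h1
      rw [h1]
      by_cases hx : x ∈ Ω
      · rw [indicator_of_mem hx, indicator_of_mem hx]; rfl
      · rw [indicator_of_notMem hx, indicator_of_notMem hx, zero_mul]
    rw [← e1, ← e2]
    exact key
  · have h1 : Continuous fun x => fderiv ℝ (trf Ω f ε) x (Pi.single j (1 : ℝ)) :=
      (hF.continuous_fderiv (by norm_num)).clm_apply continuous_const
    have h2 : HasCompactSupport fun x => fderiv ℝ (trf Ω f ε) x (Pi.single j (1 : ℝ)) :=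
      (hc.fderiv (𝕜 := ℝ)).comp_left (g := fun L : V →L[ℝ] ℝ => L (Pi.single j (1 : ℝ))) (by simp)
    exact (h1.mul hg.continuous).integrable_of_hasCompactSupport (h2.mul_right)
  · have h1 : Continuous fun x => fderiv ℝ g x (Pi.single j (1 : ℝ)) :=
      (hg.continuous_fderiv (by norm_num)).clm_apply continuous_const
    exact (hF.continuous.mul h1).integrable_of_hasCompactSupport (hc.mul_right)
  · exact (hF.continuous.mul hg.continuous).integrable_of_hasCompactSupport (hc.mul_right)

/-- **integration by parts** -/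
theorem ibp (hΩ : IsOpen Ω) (hb : Bornology.IsBounded Ω) {f g : V → ℝ} (hf : ContDiff ℝ 1 f)
    (hg : ContDiff ℝ 1 g) (h0 : ∀ x ∈ frontier Ω, f x = 0) (j : Fin 3) :
    ∫ x in Ω, f x * pd j g x = -∫ x in Ω, pd j f x * g x := by
  set ε : ℕ → ℝ := fun n => 1 / ((n : ℝ) + 1) with hε
  have hε0 : ∀ n, 0 < ε n := fun n => by simp only [hε]; positivity
  have hεt : Tendsto ε atTop (𝓝 0) := tendsto_one_div_add_atTop_nhds_zero_nat
  obtain ⟨C, hC0, hC⟩ := hcut_deriv_bdd
  have hbig : ∀ x, f x ≠ 0 → ∀ᶠ n in atTop, 2 < |f x / ε n| := by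
    intro x hx
    have h1 : 0 < |f x| / 2 := by positivity
    filter_upwards [hεt.eventually (gt_mem_nhds h1)] with n hn
    rw [abs_div, abs_of_pos (hε0 n), lt_div_iff₀ (hε0 n)]
    linarith
  have l1 : Tendsto (fun n => ∫ x in Ω, ε n * hcut (f x / ε n) * pd j g x) atTop
      (𝓝 (∫ x in Ω, f x * pd j g x)) := by
    refine tendsto_integral_of_dominated_convergence (fun x => |f x * pd j g x|) ?_ ?_ ?_ ?_
    · intro n
      have h1 : Continuous fun x => ε n * hcut (f x / ε n) * pd j g x :=
        (continuous_const.mul (hcut_smooth.continuous.comp (hf.continuous.div_const _))).mul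
          (cont_pd hg j)
      exact h1.aestronglyMeasurable
    · exact intOn hb (hf.continuous.mul (cont_pd hg j)).abs
    · intro n
      refine Eventually.of_forall fun x => ?_
      rw [Real.norm_eq_abs, abs_mul, abs_mul, abs_mul (f x)]
      refine mul_le_mul_of_nonneg_right ?_ (abs_nonneg _)
      rw [abs_of_pos (hε0 n)]
      calc ε n * |hcut (f x / ε n)| ≤ ε n * |f x / ε n| :=
            mul_le_mul_of_nonneg_left (hcut_abs _) (hε0 n).le
        _ = |f x| := by
          have h5 := (hε0 n).ne'
          rw [abs_div, abs_of_pos (hε0 n)]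
          field_simp
    · refine Eventually.of_forall fun x => ?_
      refine Tendsto.mul_const _ ?_
      by_cases hx : f x = 0
      · have e : (fun n => ε n * hcut (f x / ε n)) = fun n => f x := by
          funext n
          rw [hx, zero_div, hcut_zero (by simp), mul_zero]
        rw [e]
        exact tendsto_const_nhds
      · refine tendsto_const_nhds.congr' ?_
        filter_upwards [hbig x hx] with n hn
        rw [hcut_big hn.le]
        have := (hε0 n).ne'
        field_simp
  have l2 : Tendsto (fun n => ∫ x in Ω, deriv hcut (f x / ε n) * pd j f x * g x) atTop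
      (𝓝 (∫ x in Ω, pd j f x * g x)) := by
    refine tendsto_integral_of_dominated_convergence (fun x => C * |pd j f x * g x|) ?_ ?_ ?_ ?_
    · intro n
      have h1 : Continuous fun x => deriv hcut (f x / ε n) * pd j f x * g x :=
        (((hcut_smooth.continuous_deriv (by simp)).comp (hf.continuous.div_const _)).mul
          (cont_pd hf j)).mul hg.continuous
      exact h1.aestronglyMeasurable
    · exact (intOn hb ((cont_pd hf j).mul hg.continuous).abs).const_mul C
    · intro n
      refine Eventually.of_forall fun x => ?_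
      rw [Real.norm_eq_abs, mul_assoc, abs_mul]
      exact mul_le_mul_of_nonneg_right (hC _) (abs_nonneg _)
    · filter_upwards [ae_restrict_of_ae (ae_pd_zero hf j)] with x hx
      by_cases h : f x = 0
      · simp only [hx h, mul_zero, zero_mul]
        exact tendsto_const_nhds
      · refine tendsto_const_nhds.congr' ?_
        filter_upwards [hbig x h] with n hn
        rw [hcut_deriv_big hn, one_mul]
  have l3 := l2.neg
  have e : (fun n => ∫ x in Ω, ε n * hcut (f x / ε n) * pd j g x)
      = fun n => -∫ x in Ω, deriv hcut (f x / ε n) * pd j f x * g x := by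
    funext n
    exact ibp_trf hΩ hb hf hg h0 (hε0 n) j
  rw [e] at l1
  exact tendsto_nhds_unique l1 l3

end Pool.Agent.V1183.DL
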