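import Pool.Agent.V1183.DL.Est
import Pool.Agent.H459R3.NS.Evo

/-!
Uniqueness of smooth solutions with zero boundary values.
-/

open Set Filter Topology MeasureTheory
open scoped ContDiff

set_option autoImplicit false

namespace Pool.Agent.V1183.DL

open H459R3.NS

section ints

variable {Ω : Set V} {T : ℝ}

theorem continuousOn_intO (hΩ : IsOpen Ω) (hb : Bornology.IsBounded Ω) {F : ℝ → V → ℝ}
    (hF : ContinuousOn (fun z : ℝ × V => F z.1 z.2) (Ico 0 T ×ˢ univ)) :
    ContinuousOn (fun s => ∫ x in Ω, F s x) (Ico 0 T) := by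
  intro t ht
  obtain ⟨b, hb1, hb2⟩ := exists_between ht.2
  have hK : IsCompact (Icc 0 b ×ˢ closure Ω) := isCompact_Icc.prod hb.isCompact_closure
  have hsub : Icc 0 b ×ˢ closure Ω ⊆ Ico 0 T ×ˢ (univ : Set V) :=
    prod_mono (fun s hs => ⟨hs.1, hs.2.trans_lt hb2⟩) (subset_univ _)
  obtain ⟨C, hC⟩ := hK.exists_bound_of_continuousOn (hF.mono hsub)
  have hev : ∀ᶠ s in 𝓝[Ico 0 T] t, s ∈ Icc 0 b := by
    have h1 : ∀ᶠ s in 𝓝[Ico 0 T] t, s < b := nhdsWithin_le_nhds (Iio_mem_nhds hb1)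
    filter_upwards [h1, self_mem_nhdsWithin] with s hs1 hs2
    exact ⟨hs2.1, hs1.le⟩
  have hmeas : MeasurableSet Ω := hΩ.measurableSet
  have := fin_Ω hb
  refine continuousWithinAt_of_dominated (bound := fun _ => C) ?_ ?_ ?_ ?_
  · filter_upwards [hev] with s hs
    have hc : Continuous (fun x => F s x) := by
      have := hF.comp_continuous (f := fun x : V => ((s, x) : ℝ × V)) (by fun_prop)
        (fun x => ⟨⟨hs.1, hs.2.trans_lt hb2⟩, mem_univ _⟩)
      exact this
    exact hc.aestronglyMeasurable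
  · filter_upwards [hev] with s hs
    refine (ae_restrict_iff' hmeas).2 (Filter.Eventually.of_forall fun x hx => ?_)
    exact hC (s, x) ⟨hs, subset_closure hx⟩
  · exact integrable_const _
  · refine Filter.Eventually.of_forall fun x => ?_
    have h1 : ContinuousWithinAt (fun z : ℝ × V => F z.1 z.2)
        (Ico 0 T ×ˢ univ) (t, x) := hF (t, x) ⟨ht, mem_univ _⟩
    exact h1.comp (t := Ico 0 T ×ˢ univ) (f := fun s : ℝ => ((s, x) : ℝ × V))
      (by fun_prop) (fun s hs => ⟨hs, mem_univ _⟩)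

theorem hasDerivAt_intO (hΩ : IsOpen Ω) (hb : Bornology.IsBounded Ω) {F : ℝ → V → ℝ}
    (hF : ContDiffOn ℝ 1 (fun z : ℝ × V => F z.1 z.2) (Ioo 0 T ×ˢ univ)) {t : ℝ}
    (ht : t ∈ Ioo 0 T) :
    HasDerivAt (fun s => ∫ x in Ω, F s x) (∫ x in Ω, deriv (fun s => F s x) t) t := by
  obtain ⟨a, ha1, ha2⟩ := exists_between ht.1
  obtain ⟨b, hb1, hb2⟩ := exists_between ht.2
  have hO : IsOpen (Ioo 0 T ×ˢ (univ : Set V)) := isOpen_Ioo.prod isOpen_univ
  have hd : ContinuousOn (fun z : ℝ × V =>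
      fderiv ℝ (fun z : ℝ × V => F z.1 z.2) z (1, 0)) (Ioo 0 T ×ˢ univ) :=
    (hF.continuousOn_fderiv_of_isOpen hO le_rfl).clm_apply continuousOn_const
  have hK : IsCompact (Icc a b ×ˢ closure Ω) := isCompact_Icc.prod hb.isCompact_closure
  have hsub : Icc a b ×ˢ closure Ω ⊆ Ioo 0 T ×ˢ (univ : Set V) :=
    prod_mono (fun s hs => ⟨ha1.trans_le hs.1, hs.2.trans_lt hb2⟩) (subset_univ _)
  obtain ⟨C, hC⟩ := hK.exists_bound_of_continuousOn (hd.mono hsub)
  have hslice : ∀ s ∈ Ioo 0 T, Continuous (fun x => F s x) := fun s hs => by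
    have := hF.continuousOn.comp_continuous (f := fun x : V => ((s, x) : ℝ × V)) (by fun_prop)
      (fun x => ⟨hs, mem_univ _⟩)
    exact this
  have hnh : Icc a b ∈ 𝓝 t := Icc_mem_nhds ha2 hb1
  have hmeas : MeasurableSet Ω := hΩ.measurableSet
  have := fin_Ω hb
  have key := (hasDerivAt_integral_of_dominated_loc_of_deriv_le (s := Icc a b)
    (F := fun s x => F s x) (F' := fun s x =>
      fderiv ℝ (fun z : ℝ × V => F z.1 z.2) (s, x) (1, 0))
    (bound := fun _ => C) (μ := volume.restrict Ω) hnh ?_ ?_ ?_ ?_ ?_ ?_).2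
  · have e : (∫ x in Ω, deriv (fun s => F s x) t)
        = ∫ x in Ω, fderiv ℝ (fun z : ℝ × V => F z.1 z.2) (t, x) (1, 0) := by
      congr 1
      funext x
      exact (hasDerivAt_slice hF ht x).deriv
    rw [e]
    exact key
  · filter_upwards [Ioo_mem_nhds ht.1 ht.2] with s hs
    exact (hslice s hs).aestronglyMeasurable
  · exact intOn hb (hslice t ht)
  · have : Continuous (fun x => fderiv ℝ (fun z : ℝ × V => F z.1 z.2) (t, x) (1, 0)) := by
      have h := hd.comp_continuous (f := fun x : V => ((t, x) : ℝ × V)) (by fun_prop)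
        (fun x => ⟨ht, mem_univ _⟩)
      exact h
    exact this.aestronglyMeasurable
  · refine (ae_restrict_iff' hmeas).2 (Filter.Eventually.of_forall fun x hx s hs => ?_)
    exact hC (s, x) ⟨hs, subset_closure hx⟩
  · exact integrable_const _
  · refine Filter.Eventually.of_forall fun x s hs => ?_
    exact hasDerivAt_slice hF ⟨ha1.trans_le hs.1, hs.2.trans_lt hb2⟩ x

end ints

section

variable {s a δ ν T : ℝ} {Ω B : Set V} {D : (V → V) → V → V} {G : (V → V) → (V → V) → V → V}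
  {u v : ℝ → V → V} {p q : ℝ → V → ℝ}

theorem DSol.smooth_c (h : DSol ν T Ω D G u p) (i : Fin 3) :
    ContDiffOn ℝ ∞ (fun z : ℝ × V => u z.1 z.2 i) (Ico 0 T ×ˢ univ) :=
  (contDiffOn_pi.1 h.smooth_u) i

theorem DSol.sm (h : DSol ν T Ω D G u p) {t : ℝ} (ht : t ∈ Ico 0 T) : ContDiff ℝ ∞ (u t) :=
  contDiff_pi.2 fun i => contDiff_slice (f := fun t y => u t y i) (h.smooth_c i) ht

theorem DSol.sm_p (h : DSol ν T Ω D G u p) {t : ℝ} (ht : t ∈ Ico 0 T) : ContDiff ℝ ∞ (p t) :=
  contDiff_slice h.smooth_p ht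

/-- the difference -/
noncomputable def df (u v : ℝ → V → V) (t : ℝ) : V → V := (-1 : ℝ) • v t + u t

theorem sm_add {u v : V → V} (hu : ContDiff ℝ ∞ u) (hv : ContDiff ℝ ∞ v) (c : ℝ) :
    ContDiff ℝ ∞ (c • v + u) := (contDiff_const.smul hv).add hu

theorem sm_lap {f : V → ℝ} (hf : ContDiff ℝ ∞ f) : ContDiff ℝ ∞ (lap f) := by
  unfold lap
  exact ContDiff.sum fun j _ => sm_pd (sm_pd hf j) j

theorem lap_lin {f g : V → ℝ} (hf : ContDiff ℝ ∞ f) (hg : ContDiff ℝ ∞ g) (c : ℝ) (x : V) :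
    lap (fun y => c * f y + g y) x = c * lap f x + lap g x := by
  unfold lap
  rw [Finset.mul_sum, ← Finset.sum_add_distrib]
  refine Finset.sum_congr rfl fun j _ => ?_
  have e : pd j (fun y => c * f y + g y) = fun y => c * pd j f y + pd j g y :=
    funext fun y => pd_lin hf hg c j y
  rw [e, pd_lin (sm_pd hf j) (sm_pd hg j)]

theorem dt_diff (hL : LowerO s a δ Ω B D G) (hu : DSol ν T Ω D G u p) (hv : DSol ν T Ω D G v q)
    {t : ℝ} (ht : t ∈ Ioo 0 T) {x : V} (hx : x ∈ Ω) (i : Fin 3) :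
    deriv (fun s => u s x i) t - deriv (fun s => v s x i) t =
      ν * lap (fun y => df u v t y i) x - ν * D (df u v t) x i
      - ((∑ j, df u v t x j * pd j (fun y => u t y i) x)
        + ∑ j, v t x j * pd j (fun y => df u v t y i) x)
      - (pd i (p t) x - pd i (q t) x) - G (df u v t) (u t) x i - G (v t) (df u v t) x i := by
  have hI : t ∈ Ico 0 T := ⟨ht.1.le, ht.2⟩
  have su := hu.sm hI
  have sv := hv.sm hI
  have m1 := hu.momentum t ht x hx i
  have m2 := hv.momentum t ht x hx i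
  have d1 : D (df u v t) x i = -D (v t) x i + D (u t) x i := by
    have := congrFun (congrFun (hL.D_linear (-1) (v t) (u t) sv su) x) i
    rw [show D (df u v t) x i = D ((-1 : ℝ) • v t + u t) x i from rfl, this]
    show -1 * D (v t) x i + D (u t) x i = _
    ring
  have g1 : G (df u v t) (u t) x i = -G (v t) (u t) x i + G (u t) (u t) x i := by
    have := congrFun (congrFun (hL.G_left (-1) (v t) (u t) (u t) sv su su) x) i
    rw [show G (df u v t) (u t) x i = G ((-1 : ℝ) • v t + u t) (u t) x i from rfl, this]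
    show -1 * G (v t) (u t) x i + G (u t) (u t) x i = _
    ring
  have g2 : G (v t) (df u v t) x i = -G (v t) (v t) x i + G (v t) (u t) x i := by
    have := congrFun (congrFun (hL.G_right (-1) (v t) (v t) (u t) sv sv su) x) i
    rw [show G (v t) (df u v t) x i = G (v t) ((-1 : ℝ) • v t + u t) x i from rfl, this]
    show -1 * G (v t) (v t) x i + G (v t) (u t) x i = _
    ring
  have ew : (fun y => df u v t y i) = fun y => -1 * v t y i + u t y i := rfl
  have l1 : lap (fun y => df u v t y i) x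
      = -lap (fun y => v t y i) x + lap (fun y => u t y i) x := by
    rw [ew, lap_lin (sm_c sv i) (sm_c su i)]
    ring
  have p1 : ∀ j, pd j (fun y => df u v t y i) x
      = -pd j (fun y => v t y i) x + pd j (fun y => u t y i) x := by
    intro j
    rw [ew, pd_lin (sm_c sv i) (sm_c su i)]
    ring
  have c1 : (∑ j, df u v t x j * pd j (fun y => u t y i) x)
        + ∑ j, v t x j * pd j (fun y => df u v t y i) x
      = (∑ j, u t x j * pd j (fun y => u t y i) x) - ∑ j, v t x j * pd j (fun y => v t y i) x := by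
    rw [← Finset.sum_add_distrib, ← Finset.sum_sub_distrib]
    refine Finset.sum_congr rfl fun j _ => ?_
    rw [p1 j]
    show (-1 * v t x j + u t x j) * _ + _ = _
    ring
  rw [d1, g1, g2, l1, c1]
  unfold lap
  linarith

theorem dot_lin (hb : Bornology.IsBounded Ω) {A A' w : V → V} (hA : Continuous A)
    (hA' : Continuous A') (hw : Continuous w) (c : ℝ) :
    dotO Ω (c • A + A') w = c * dotO Ω A w + dotO Ω A' w := by
  have k : ∀ {v : V → V}, Continuous v → ∀ i, Continuous fun y => v y i := fun h i =>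
    (continuous_pi_iff.1 h) i
  unfold dotO
  rw [Finset.mul_sum, ← Finset.sum_add_distrib]
  refine Finset.sum_congr rfl fun i _ => ?_
  rw [← integral_const_mul, ← integral_add ((intM hb (k hA i) (k hw i)).const_mul c)
    (intM hb (k hA' i) (k hw i))]
  congr 1
  funext x
  show (c * A x i + A' x i) * w x i = _
  ring

theorem dot_zl (w : V → V) : dotO Ω 0 w = 0 := by
  unfold dotO
  simp

theorem dot_congrO (hΩ : IsOpen Ω) {A A' w : V → V} (h : ∀ x ∈ Ω, A x = A' x) :
    dotO Ω A w = dotO Ω A' w := by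
  unfold dotO
  refine Finset.sum_congr rfl fun i _ => setIntegral_congr_fun hΩ.measurableSet fun x hx => ?_
  simp only [h x hx]

theorem diff_ineq (hΩ : IsOpen Ω) (hb : Bornology.IsBounded Ω) (hL : LowerO s a δ Ω B D G)
    (hs0 : 0 ≤ s) (hs1 : s ≤ 1) (hδ : 0 ≤ δ) (hν : 0 < ν)
    (hu : DSol ν T Ω D G u p) (hv : DSol ν T Ω D G v q) {t : ℝ}
    (ht : t ∈ Ioo 0 T) {M K : ℝ} (hM : 1 ≤ M) (hK : 1 ≤ K) (hKν : 18 * (δ * M) ≤ ν * K)
    (b1 : ∀ x ∈ Ω, ‖u t x‖ ≤ M) (b2 : ∀ x ∈ Ω, ‖fderiv ℝ (u t) x‖ ≤ M)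
    (b3 : ∀ x ∈ Ω, ‖v t x‖ ≤ M) :
    dotO Ω (fun x i => deriv (fun s => u s x i) t - deriv (fun s => v s x i) t) (df u v t)
      ≤ (3 * M + (2 * δ * M + δ * M * (K + 2))) * dotO Ω (df u v t) (df u v t) := by
  have hI : t ∈ Ico 0 T := ⟨ht.1.le, ht.2⟩
  have su := hu.sm hI
  have sv := hv.sm hI
  set w := df u v t with hw
  have sw : ContDiff ℝ ∞ w := sm_add su sv (-1)
  have hw0 : ∀ x ∈ frontier Ω, w x = 0 := by
    intro x hx
    show (-1 : ℝ) • v t x + u t x = 0
    rw [hu.bdry t hI x hx, hv.bdry t hI x hx]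
    simp
  have hr : ContDiff ℝ ∞ (fun x => p t x - q t x) := (hu.sm_p hI).sub (hv.sm_p hI)
  -- the pieces
  set A1 : V → V := fun x i => lap (fun y => w y i) x with hA1
  set A2 : V → V := D w with hA2
  set A3 : V → V := fun x i => (∑ j, w x j * pd j (fun y => u t y i) x)
        + ∑ j, v t x j * pd j (fun y => w y i) x with hA3
  set A4 : V → V := fun x i => pd i (fun x => p t x - q t x) x with hA4
  set A5 : V → V := G w (u t) with hA5
  set A6 : V → V := G (v t) w with hA6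
  have s1 : Continuous A1 := continuous_pi fun i => (sm_lap (sm_c sw i)).continuous
  have s2 : Continuous A2 := (hL.D_smooth w sw).continuous
  have s3 : Continuous A3 := continuous_pi fun i =>
    (continuous_finsetSum _ fun j _ => (c_of sw j).mul (sm_pd (sm_c su i) j).continuous).add
      (continuous_finsetSum _ fun j _ => (c_of sv j).mul (sm_pd (sm_c sw i) j).continuous)
  have s4 : Continuous A4 := continuous_pi fun i => (sm_pd hr i).continuous
  have s5 : Continuous A5 := (hL.G_smooth w (u t) sw su).continuous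
  have s6 : Continuous A6 := (hL.G_smooth (v t) w sv sw).continuous
  have sc := sw.continuous
  have e : dotO Ω (fun x i => deriv (fun s => u s x i) t - deriv (fun s => v s x i) t) w
      = dotO Ω (ν • A1 + ((-ν) • A2 + ((-1 : ℝ) • A3 + ((-1 : ℝ) • A4 + ((-1 : ℝ) • A5 +
        ((-1 : ℝ) • A6 + 0)))))) w := by
    refine dot_congrO hΩ fun x hx => ?_
    funext i
    rw [dt_diff hL hu hv ht hx i]
    have h4 : pd i (fun x => p t x - q t x) x = pd i (p t) x - pd i (q t) x :=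
      pd_sub' (hu.sm_p hI) (hv.sm_p hI) i x
    show _ = ν * A1 x i + (-ν * A2 x i + (-1 * A3 x i + (-1 * A4 x i + (-1 * A5 x i
      + (-1 * A6 x i + 0)))))
    have h4' : A4 x i = pd i (p t) x - pd i (q t) x := h4
    rw [h4']
    show _ = ν * lap (fun y => w y i) x + (-ν * D w x i + (-1 * ((∑ j, w x j * pd j (fun y => u t y i) x)
        + ∑ j, v t x j * pd j (fun y => w y i) x) + (-1 * (pd i (p t) x - pd i (q t) x)
        + (-1 * G w (u t) x i + (-1 * G (v t) w x i + 0)))))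
    ring
  have z6 : Continuous ((-1 : ℝ) • A6 + 0) := (s6.const_smul _).add continuous_zero
  have z5 : Continuous ((-1 : ℝ) • A5 + ((-1 : ℝ) • A6 + 0)) := (s5.const_smul _).add z6
  have z4 := (s4.const_smul (-1 : ℝ)).add z5
  have z3 := (s3.const_smul (-1 : ℝ)).add z4
  have z2 := (s2.const_smul (-ν)).add z3
  rw [e, dot_lin hb s1 z2 sc, dot_lin hb s2 z3 sc, dot_lin hb s3 z4 sc, dot_lin hb s4 z5 sc,
    dot_lin hb s5 z6 sc, dot_lin hb s6 continuous_zero sc, dot_zl]
  have k1 : dotO Ω A1 w = -grO Ω w := dot_lapO hΩ hb sw hw0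
  have k2 : 0 ≤ dotO Ω A2 w := hL.D_nonneg w sw
  have k3 := conv_diffO hΩ hb su sv sw hw0 (hv.divfree t hI) hM b2
  have k4 : dotO Ω A4 w = 0 := by
    refine dot_press hΩ hb sw hr hw0 fun x hx => ?_
    have h1 := hu.divfree t hI x hx
    have h2 := hv.divfree t hI x hx
    have h3 : ∀ i, pd i (fun y => w y i) x
        = -1 * pd i (fun y => v t y i) x + pd i (fun y => u t y i) x := by
      intro i
      have ew : (fun y => w y i) = fun y => -1 * v t y i + u t y i := rfl
      rw [ew, pd_lin (sm_c sv i) (sm_c su i)]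
    simp_rw [h3]
    rw [Finset.sum_add_distrib, ← Finset.mul_sum, h1, h2]
    ring
  have k5 := hL.dG hΩ hb hs0 hs1 hδ su sv sw hM hK b1 b2 b3
  have k3' : |dotO Ω A3 w| ≤ 3 * M * dotO Ω w w := k3
  have k5' : |dotO Ω A5 w| + |dotO Ω A6 w| ≤
      (2 * δ * M + δ * M * (K + 2)) * dotO Ω w w + δ * M * K⁻¹ * (18 * grO Ω w) := k5
  have g0 : 0 ≤ grO Ω w := grO_nonneg w
  have hK0 : 0 < K := by linarith
  have k7 : δ * M * K⁻¹ * (18 * grO Ω w) ≤ ν * grO Ω w := by
    have h1 : δ * M * K⁻¹ * 18 ≤ ν := by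
      have : δ * M * K⁻¹ * 18 = 18 * (δ * M) / K := by field_simp
      rw [this, div_le_iff₀ hK0]
      exact hKν
    calc δ * M * K⁻¹ * (18 * grO Ω w) = (δ * M * K⁻¹ * 18) * grO Ω w := by ring
      _ ≤ ν * grO Ω w := by gcongr
  have l3 := (abs_le.1 k3').1
  have l5 := neg_abs_le (dotO Ω A5 w)
  have l6 := neg_abs_le (dotO Ω A6 w)
  have l2 : 0 ≤ ν * dotO Ω A2 w := mul_nonneg hν.le k2
  rw [k1, k4]
  linarith

theorem uniq_Icc (hΩ : IsOpen Ω) (hb : Bornology.IsBounded Ω) (hL : LowerO s a δ Ω B D G)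
    (hs0 : 0 ≤ s) (hs1 : s ≤ 1) (hδ : 0 ≤ δ) (hν : 0 < ν)
    (hu : DSol ν T Ω D G u p) (hv : DSol ν T Ω D G v q) (h0 : ∀ x ∈ Ω, v 0 x = u 0 x) {b : ℝ}
    (hb0 : 0 < b) (hbT : b < T) : dotO Ω (df u v b) (df u v b) = 0 := by
  have hT : 0 < T := hb0.trans hbT
  -- bounds
  have hsub : Icc 0 b ×ˢ closure Ω ⊆ Ico 0 T ×ˢ (univ : Set V) :=
    prod_mono (fun r hr => ⟨hr.1, hr.2.trans_lt hbT⟩) (subset_univ _)
  have hK : IsCompact (Icc 0 b ×ˢ closure Ω) := isCompact_Icc.prod hb.isCompact_closure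
  obtain ⟨M1, hM1⟩ := hK.exists_bound_of_continuousOn (hu.smooth_u.continuousOn.mono hsub)
  obtain ⟨M2, hM2⟩ := hK.exists_bound_of_continuousOn (hv.smooth_u.continuousOn.mono hsub)
  have hpd : ∀ i j : Fin 3, ∃ M, ∀ z ∈ Icc 0 b ×ˢ closure Ω,
      ‖pd j (fun y => u z.1 y i) z.2‖ ≤ M := fun i j =>
    hK.exists_bound_of_continuousOn
      ((contDiffOn_pd (f := fun t y => u t y i) (hu.smooth_c i) j).continuousOn.mono hsub)
  choose M3 hM3 using hpd
  set M : ℝ := 1 + |M1| + |M2| + ∑ j, ∑ i, |M3 i j| with hM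
  have hM3' : 0 ≤ ∑ j, ∑ i, |M3 i j| :=
    Finset.sum_nonneg fun _ _ => Finset.sum_nonneg fun _ _ => abs_nonneg _
  have hMone : 1 ≤ M := by
    have := abs_nonneg M1
    have := abs_nonneg M2
    linarith
  have b1 : ∀ t ∈ Icc 0 b, ∀ x ∈ Ω, ‖u t x‖ ≤ M := by
    intro t ht x hx
    have h1 := hM1 (t, x) ⟨ht, subset_closure hx⟩
    have := abs_nonneg M2
    exact (h1.trans (le_abs_self _)).trans (by linarith)
  have b3 : ∀ t ∈ Icc 0 b, ∀ x ∈ Ω, ‖v t x‖ ≤ M := by
    intro t ht x hx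
    have h1 := hM2 (t, x) ⟨ht, subset_closure hx⟩
    have := abs_nonneg M1
    exact (h1.trans (le_abs_self _)).trans (by linarith)
  have b2 : ∀ t ∈ Icc 0 b, ∀ x ∈ Ω, ‖fderiv ℝ (u t) x‖ ≤ M := by
    intro t ht x hx
    have hI : t ∈ Ico 0 T := ⟨ht.1, ht.2.trans_lt hbT⟩
    refine (fd_norm_le (hu.sm hI) x).trans ?_
    have h1 : ∑ j, ∑ i, |pd j (fun y => u t y i) x| ≤ ∑ j, ∑ i, |M3 i j| := by
      refine Finset.sum_le_sum fun j _ => Finset.sum_le_sum fun i _ => ?_
      have := hM3 i j (t, x) ⟨ht, subset_closure hx⟩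
      exact this.trans (le_abs_self _)
    have := abs_nonneg M1
    have := abs_nonneg M2
    linarith
  set K : ℝ := 1 + 18 * (δ * M) / ν with hKd
  have hK1 : 1 ≤ K := by
    have : 0 ≤ 18 * (δ * M) / ν := by positivity
    linarith
  have hKν : 18 * (δ * M) ≤ ν * K := by
    have : ν * K = ν + 18 * (δ * M) := by rw [hKd]; field_simp
    linarith
  set κ := 3 * M + (2 * δ * M + δ * M * (K + 2)) with hκ
  set E : ℝ → ℝ := fun t => dotO Ω (df u v t) (df u v t) with hE
  -- smoothness of the difference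
  have hws : ∀ i, ContDiffOn ℝ ∞ (fun z : ℝ × V => df u v z.1 z.2 i * df u v z.1 z.2 i)
      (Ico 0 T ×ˢ univ) := by
    intro i
    have h1 : ContDiffOn ℝ ∞ (fun z : ℝ × V => df u v z.1 z.2 i) (Ico 0 T ×ˢ univ) := by
      have e : (fun z : ℝ × V => df u v z.1 z.2 i) = fun z => -1 * v z.1 z.2 i + u z.1 z.2 i := rfl
      rw [e]
      exact (contDiffOn_const.mul (hv.smooth_c i)).add (hu.smooth_c i)
    exact h1.mul h1
  have hEc : ContinuousOn E (Ico 0 T) := by
    have e : E = fun t => ∑ i, ∫ x in Ω, df u v t x i * df u v t x i := rfl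
    rw [e]
    exact continuousOn_finsetSum _ fun i _ =>
      continuousOn_intO hΩ hb (F := fun t x => df u v t x i * df u v t x i) (hws i).continuousOn
  have hEd : ∀ t ∈ Ioo 0 T, HasDerivAt E (2 * dotO Ω (fun x i => deriv (fun s => u s x i) t
      - deriv (fun s => v s x i) t) (df u v t)) t := by
    intro t ht
    have h1 : ∀ i, HasDerivAt (fun r => ∫ x in Ω, df u v r x i * df u v r x i)
        (2 * ∫ x in Ω, (deriv (fun s => u s x i) t - deriv (fun s => v s x i) t)
          * df u v t x i) t := by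
      intro i
      have hF := mono_Ioo (f := fun t x => df u v t x i * df u v t x i) (n := 1) (hws i)
        (by norm_cast)
      have key := hasDerivAt_intO hΩ hb (F := fun t x => df u v t x i * df u v t x i) hF ht
      refine key.congr_deriv ?_
      rw [← integral_const_mul]
      congr 1
      funext x
      have hu1 : HasDerivAt (fun s => u s x i) (deriv (fun s => u s x i) t) t := by
        have := hasDerivAt_slice (F := fun s y => u s y i)
          (mono_Ioo (f := fun s y => u s y i) (hu.smooth_c i) (by norm_cast)) ht x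
        exact this.differentiableAt.hasDerivAt
      have hv1 : HasDerivAt (fun s => v s x i) (deriv (fun s => v s x i) t) t := by
        have := hasDerivAt_slice (F := fun s y => v s y i)
          (mono_Ioo (f := fun s y => v s y i) (hv.smooth_c i) (by norm_cast)) ht x
        exact this.differentiableAt.hasDerivAt
      have hw1 : HasDerivAt (fun s => df u v s x i)
          (-1 * deriv (fun s => v s x i) t + deriv (fun s => u s x i) t) t :=
        (hv1.const_mul (-1)).add hu1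
      have hw2 : HasDerivAt (fun s => df u v s x i * df u v s x i) _ t := hw1.mul hw1
      rw [hw2.deriv]
      ring
    have h2 : HasDerivAt E (∑ i, 2 * ∫ x in Ω, (deriv (fun s => u s x i) t
        - deriv (fun s => v s x i) t) * df u v t x i) t := HasDerivAt.fun_sum fun i _ => h1 i
    refine h2.congr_deriv ?_
    rw [← Finset.mul_sum]
    rfl
  -- Gronwall
  set f : ℝ → ℝ := fun t => E t * Real.exp (-(2 * κ * t)) with hf
  have hfd : ∀ t ∈ Ioo 0 T, HasDerivAt f ((2 * dotO Ω (fun x i => deriv (fun s => u s x i) t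
      - deriv (fun s => v s x i) t) (df u v t) - 2 * κ * E t) * Real.exp (-(2 * κ * t))) t := by
    intro t ht
    have h1 := hEd t ht
    have h2 : HasDerivAt (fun t => Real.exp (-(2 * κ * t))) (Real.exp (-(2 * κ * t)) * -(2 * κ)) t := by
      have h3 : HasDerivAt (fun t : ℝ => -(2 * κ * t)) (-(2 * κ)) t := by
        have h4 := (hasDerivAt_id t).const_mul (-(2 * κ))
        have e1 : (fun t : ℝ => -(2 * κ * t)) = fun y => -(2 * κ) * id y := by
          funext y
          simp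
        rw [e1]
        exact h4.congr_deriv (by ring)
      exact h3.exp
    refine (h1.mul h2).congr_deriv ?_
    ring
  have hanti : AntitoneOn f (Icc 0 b) := by
    refine antitoneOn_of_deriv_nonpos (convex_Icc 0 b) ?_ ?_ ?_
    · have h1 : ContinuousOn E (Icc 0 b) := hEc.mono fun r hr => ⟨hr.1, hr.2.trans_lt hbT⟩
      exact h1.mul (by fun_prop)
    · intro t ht
      rw [interior_Icc] at ht
      exact (hfd t ⟨ht.1, ht.2.trans hbT⟩).differentiableAt.differentiableWithinAt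
    · intro t ht
      rw [interior_Icc] at ht
      rw [(hfd t ⟨ht.1, ht.2.trans hbT⟩).deriv]
      refine mul_nonpos_of_nonpos_of_nonneg ?_ (Real.exp_pos _).le
      have htI : t ∈ Icc 0 b := ⟨ht.1.le, ht.2.le⟩
      have := diff_ineq hΩ hb hL hs0 hs1 hδ hν hu hv ⟨ht.1, ht.2.trans hbT⟩ hMone hK1 hKν
        (b1 t htI) (b2 t htI) (b3 t htI)
      have e : E t = dotO Ω (df u v t) (df u v t) := rfl
      rw [e]
      linarith
  have h1 := hanti (left_mem_Icc.2 hb0.le) (right_mem_Icc.2 hb0.le) hb0.le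
  have h2 : f 0 = 0 := by
    have h5 : dotO Ω (df u v 0) (df u v 0) = 0 := by
      rw [dot_congrO (A' := 0) hΩ fun x hx => ?_, dot_zl]
      show (-1 : ℝ) • v 0 x + u 0 x = 0
      rw [h0 x hx]
      simp
    show dotO Ω (df u v 0) (df u v 0) * _ = 0
    rw [h5, zero_mul]
  rw [h2] at h1
  have h3 : E b ≤ 0 := by
    have h4 : E b * Real.exp (-(2 * κ * b)) ≤ 0 := h1
    exact nonpos_of_mul_nonpos_left h4 (Real.exp_pos _)
  have h5 : 0 ≤ E b := Finset.sum_nonneg fun i _ => integral_nonneg fun x => mul_self_nonneg _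
  exact le_antisymm h3 h5

/-- a smooth field with vanishing norm is zero in `Ω` -/
theorem eq_zero_of_dotO (hΩ : IsOpen Ω) (hb : Bornology.IsBounded Ω) {w : V → V}
    (hw : ContDiff ℝ ∞ w) (h : dotO Ω w w = 0) : ∀ x ∈ Ω, w x = 0 := by
  intro x hx
  funext i
  by_contra hne
  have hi : ∫ x in Ω, w x i * w x i = 0 := by
    have hnn : ∀ i ∈ (Finset.univ : Finset (Fin 3)), 0 ≤ ∫ x in Ω, w x i * w x i := fun i _ =>
      integral_nonneg fun x => mul_self_nonneg _
    exact (Finset.sum_eq_zero_iff_of_nonneg hnn).1 h i (Finset.mem_univ i)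
  have hc : Continuous fun x => w x i * w x i := (c_of hw i).mul (c_of hw i)
  have h1 := (setIntegral_eq_zero_iff_of_nonneg_ae (μ := volume) (s := Ω)
    (Eventually.of_forall fun x => mul_self_nonneg (w x i)) (intM hb (c_of hw i) (c_of hw i))).1 hi
  have h2 : ∀ᵐ y ∂(volume : Measure V), y ∈ Ω → w y i * w y i = 0 := by
    have := (ae_restrict_iff' hΩ.measurableSet).1 h1
    filter_upwards [this] with y hy hyΩ
    exact hy hyΩ
  have hO : IsOpen (Ω ∩ {y | w y i ≠ 0}) :=
    hΩ.inter (isOpen_ne_fun (c_of hw i) continuous_const)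
  have hpos : 0 < volume (Ω ∩ {y | w y i ≠ 0}) := hO.measure_pos volume ⟨x, hx, hne⟩
  refine hpos.ne' (measure_mono_null ?_ h2)
  rintro y ⟨hy1, hy2⟩
  simp only [mem_compl_iff, mem_setOf_eq, not_forall]
  exact ⟨hy1, mul_self_ne_zero.2 hy2⟩

/-- uniqueness -/
theorem unique (hΩ : IsOpen Ω) (hb : Bornology.IsBounded Ω) (hL : LowerO s a δ Ω B D G)
    (hs0 : 0 ≤ s) (hs1 : s ≤ 1) (hδ : 0 ≤ δ) (hν : 0 < ν)
    (hu : DSol ν T Ω D G u p) (hv : DSol ν T Ω D G v q) (h0 : ∀ x ∈ Ω, v 0 x = u 0 x) :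
    ∀ t ∈ Ico 0 T, ∀ x ∈ Ω, v t x = u t x := by
  intro t ht x hx
  rcases ht.1.eq_or_lt with h | h
  · rw [← h]; exact h0 x hx
  · have h1 := uniq_Icc hΩ hb hL hs0 hs1 hδ hν hu hv h0 h ht.2
    have hw : ContDiff ℝ ∞ (df u v t) := sm_add (hu.sm ht) (hv.sm ht) (-1)
    have h2 := eq_zero_of_dotO hΩ hb hw h1 x hx
    funext i
    have h3 : -1 * v t x i + u t x i = 0 := congrFun h2 i
    linarith

/-- restriction to a shorter time interval -/
theorem DSol.mono (h : DSol ν T Ω D G u p) {T' : ℝ} (hT : T' ≤ T) : DSol ν T' Ω D G u p where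
  smooth_u := h.smooth_u.mono (prod_mono (fun _ hr => ⟨hr.1, hr.2.trans_le hT⟩) subset_rfl)
  smooth_p := h.smooth_p.mono (prod_mono (fun _ hr => ⟨hr.1, hr.2.trans_le hT⟩) subset_rfl)
  bdry := fun t ht => h.bdry t ⟨ht.1, ht.2.trans_le hT⟩
  divfree := fun t ht => h.divfree t ⟨ht.1, ht.2.trans_le hT⟩
  momentum := fun t ht => h.momentum t ⟨ht.1, ht.2.trans_le hT⟩

/-- an unbounded solution cannot be continued -/
theorem maximal (hΩ : IsOpen Ω) (hb : Bornology.IsBounded Ω) (hL : LowerO s a δ Ω B D G)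
    (hs0 : 0 ≤ s) (hs1 : s ≤ 1) (hδ : 0 ≤ δ) (hν : 0 < ν)
    (hu : DSol ν T Ω D G u p) (hub : ∀ M : ℝ, ∃ t ∈ Ico 0 T, ∃ x ∈ Ω, M < ‖u t x‖)
    {T' : ℝ} (hv : DSol ν T' Ω D G v q) (h0 : ∀ x ∈ Ω, v 0 x = u 0 x) :
    T' ≤ T ∧ ∀ t ∈ Ico 0 T', ∀ x ∈ Ω, v t x = u t x := by
  have key : T' ≤ T := by
    by_contra hcon
    push Not at hcon
    have h1 := unique hΩ hb hL hs0 hs1 hδ hν hu (hv.mono hcon.le) h0
    have hsub : Icc 0 T ×ˢ closure Ω ⊆ Ico 0 T' ×ˢ (univ : Set V) :=
      prod_mono (fun r hr => ⟨hr.1, hr.2.trans_lt hcon⟩) (subset_univ _)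
    have hK : IsCompact (Icc 0 T ×ˢ closure Ω) := isCompact_Icc.prod hb.isCompact_closure
    obtain ⟨M, hM⟩ := hK.exists_bound_of_continuousOn (hv.smooth_u.continuousOn.mono hsub)
    obtain ⟨t, ht, x, hx, hxM⟩ := hub M
    have h9 := hM (t, x) ⟨⟨ht.1, ht.2.le⟩, subset_closure hx⟩
    simp only at h9
    rw [h1 t ht x hx] at h9
    linarith
  exact ⟨key, unique hΩ hb hL hs0 hs1 hδ hν (hu.mono key) hv h0⟩

end

end Pool.Agent.V1183.DL
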