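import Pool.Agent.V1183.DL.SolO
import Pool.Agent.V1183.DL.UniqO
import Pool.Agent.V1178.NS.Fin

/-!
The main result on bounded open sets.
-/

open Set Filter Topology MeasureTheory
open scoped ContDiff ENNReal

set_option autoImplicit false

namespace Pool.Agent.V1183.DL

open H459R3.NS hiding tt
open Pool.Agent.V1178.NS

/-- the periodic solution, with its support (the same choice as in `V1178.NS.Cho.main`) -/
theorem cho_main {ν δ ρ s a s' a' R Γ : ℝ} (h : Cho ν δ ρ s a s' a' R Γ) :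
    ∃ (D : (V → V) → V → V) (G : (V → V) → (V → V) → V → V) (T : ℝ) (u : ℝ → V → V),
      Lower s a δ ρ D G ∧ 0 < T ∧ PSol ν T D G u (fun _ _ => 0) ∧
      (∀ M : ℝ, ∃ t ∈ Ico 0 T, ∃ x, M < ‖u t x‖) ∧ (∀ t, ∀ y ∉ Reg ρ, u t y = 0) ∧
      ∀ t ∈ Ico 0 T, SPV (u t) := by
  have hR := h.R2
  have hG := h.Γ1
  have hR0 : 0 < R := by linarith
  have hG0 : 0 < Γ := by linarith
  have hν := h.ν0
  have hκ := h.kap_pos
  have hμ : R ^ 2 = kap s' a' R * R ^ gm s' a' := by
    unfold kap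
    rw [← Real.rpow_add hR0]
    have : 2 - gm s' a' + gm s' a' = 2 := by ring
    rw [this]
    norm_cast
  have hodes : ∀ n, ν * tt R Γ (n + 1) ^ 2
      = 9 / 10 * (kap s' a' R ^ n * Ln ν s' a' R Γ n) := by
    intro n
    have e : tt R Γ (n + 1) = 1000 * R ^ (n + 1) * Γ := by unfold tt; simp
    have e2 : kap s' a' R ^ n * (R ^ gm s' a') ^ n = (R ^ 2) ^ n := by
      rw [← mul_pow, ← hμ]
    rw [e]
    unfold Ln L0
    calc ν * (1000 * R ^ (n + 1) * Γ) ^ 2
        = 9 / 10 * ((R ^ 2) ^ n * (10 / 9 * ν * 10 ^ 6 * R ^ 2 * Γ ^ 2)) := by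
          rw [pow_succ, ← pow_mul]
          ring
      _ = _ := by rw [← e2]; ring
  obtain ⟨T, x, hT, hder, hrap, hgr, hRD⟩ := ode_blow (κ := kap s' a' R) (μ := R ^ 2)
    (lam := R ^ gm s' a') (R := R) (C := Cc s' a' R) (L := Ln ν s' a' R Γ)
    (ℓ := fun n => ν * tt R Γ n ^ 2)
    (by
      unfold Cc
      have : Real.exp (-(601 / 10000 * R ^ 2)) ≤ Real.exp (-(600 / 10000 * R ^ 2)) :=
        Real.exp_le_exp.2 (by nlinarith [sq_nonneg R])
      gcongr)
    (by
      unfold Cc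
      have : Real.exp (-(600 / 10000 * R ^ 2)) ≤ Real.exp (-(599 / 10000 * R ^ 2)) :=
        Real.exp_le_exp.2 (by nlinarith [sq_nonneg R])
      gcongr)
    hκ h.Rκ hμ h.Rμ (h.seqs.one 0) h.seqs.geo hR le_rfl h.Rexp
    (fun n => by positivity)
    (by
      have e : tt R Γ 0 = Γ := by unfold tt; simp
      have e2 : Ln ν s' a' R Γ 0 = L0 ν R Γ := by unfold Ln; simp
      rw [e, e2]
      unfold L0
      have : 0 ≤ ν * R ^ 2 * Γ ^ 2 := by positivity
      linarith)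
    hodes
    ⟨ν, hν, fun n => by
      have h1 := h.t_le n
      have h2 : R ^ n ≤ tt R Γ n := by
        refine le_trans ?_ h1
        have : 0 < R ^ n := by positivity
        nlinarith
      have h3 : R ^ (2 * n) = (R ^ n) ^ 2 := by rw [← pow_mul]; ring_nf
      rw [h3]
      gcongr⟩
  set t₀ := T / 2 with ht₀
  have ht₀0 : 0 < t₀ := by linarith
  have hsol := usol_psol (ν := ν) (t₀ := t₀) (C := Cc s' a' R) h.fam h.amp_pos ht₀0 hRD
    (fun n => rfl) hder hrap
  have hub : ∀ M : ℝ, ∃ t ∈ Ico 0 (T - t₀), ∃ z, M < ‖usol (fun n => pp s' a' (tt R Γ n))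
      (ampl ν s' a' R Γ) t₀ x t z‖ := by
    intro M
    refine usol_unbounded (κ := kap s' a' R) h.fam h.amp_pos hκ hrap (by linarith) hgr ?_ ?_ M
    · -- `L n (9/1000 κ)^n = L0 (9/1000 R²)^n`
      have e : (fun n => Ln ν s' a' R Γ n * (9 / 1000 * kap s' a' R) ^ n)
          = fun n => L0 ν R Γ * (9 / 1000 * R ^ 2) ^ n := by
        funext n
        unfold Ln
        rw [hμ]
        rw [mul_pow, mul_pow, mul_pow]
        ring
      rw [e]
      have hL0 : 1 ≤ L0 ν R Γ := h.cL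
      refine Tendsto.const_mul_atTop (by linarith) (tendsto_pow_atTop_atTop_of_one_lt ?_)
      have := h.Rμ
      norm_num at this
      linarith
    · have hlow : ∀ n, (9 / 1000 * R ^ (2 - s')) ^ n
          ≤ (9 / 1000 * kap s' a' R) ^ n * (pp s' a' (tt R Γ n)).vol ^ (-(1 / 2) : ℝ) := by
        intro n
        have ht := h.t_pos n
        rw [vol_half s' ht]
        have hgs : 0 ≤ gm s' a' - s' := by
          have := h.gm2
          have := h.ss
          have := h.s1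
          linarith
        have h1 : (R ^ n) ^ (gm s' a' - s') ≤ tt R Γ n ^ (gm s' a' - s') := by
          refine Real.rpow_le_rpow (by positivity) ?_ hgs
          refine le_trans ?_ (h.t_le n)
          have : 0 < R ^ n := by positivity
          nlinarith
        have h2 : (R ^ n) ^ (gm s' a' - s') = (R ^ (gm s' a' - s')) ^ n := by
          rw [← Real.rpow_natCast R, ← Real.rpow_mul hR0.le, mul_comm (n : ℝ),
            Real.rpow_mul hR0.le, Real.rpow_natCast]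
        have h3 : R ^ (2 - s') = kap s' a' R * R ^ (gm s' a' - s') := by
          unfold kap
          rw [← Real.rpow_add hR0]
          congr 1
          ring
        calc (9 / 1000 * R ^ (2 - s')) ^ n
            = (9 / 1000 * kap s' a' R) ^ n * (R ^ (gm s' a' - s')) ^ n := by
              rw [h3, ← mul_pow]
              ring
          _ ≤ (9 / 1000 * kap s' a' R) ^ n * tt R Γ n ^ (gm s' a' - s') := by
            rw [← h2]
            gcongr
      exact tendsto_atTop_mono hlow (tendsto_pow_atTop_atTop_of_one_lt h.Rgr)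
  have hsup : ∀ t, ∀ y ∉ Reg ρ, usol (fun n => pp s' a' (tt R Γ n)) (ampl ν s' a' R Γ) t₀ x t y
      = 0 := by
    intro t y hy
    funext i
    exact syn_out h.fam.spU (fun n hn => hy (h.K_reg (h.Γ_le n) hn)) i
  exact ⟨_, _, T - t₀, _, h.lower, by linarith, hsol, hub, hsup, fun t ht =>
    ⟨(hsol.smooth_u.comp (contDiff_prodMk_right t).contDiffOn (fun z _ => ⟨ht, mem_univ z⟩) :
      ContDiffOn ℝ ∞ _ univ) |> contDiffOn_univ.1, hsol.per_u t ht⟩⟩

/-- the main result -/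
theorem dl_main : ∀ (Ω : Set V) (b : V) (ρ ν δ s a : ℝ), IsOpen Ω → Bornology.IsBounded Ω →
    0 < ρ → Metric.ball b ρ ⊆ Ω → 0 < ν → 0 < δ → s < 1 → a < 1 → 2 < 3 * a →
    7 < 6 * s + 3 * a →
    ∃ (D : (V → V) → V → V) (G : (V → V) → (V → V) → V → V) (T : ℝ) (u : ℝ → V → V)
      (p : ℝ → V → ℝ), LowerO s a δ Ω (Metric.ball b ρ) D G ∧ 0 < T ∧ DSol ν T Ω D G u p ∧
      (∀ t ∈ Ico 0 T, ∀ x ∉ Metric.ball b ρ, u t x = 0) ∧
      (∀ M : ℝ, ∃ t ∈ Ico 0 T, ∃ x ∈ Ω, M < ‖u t x‖) ∧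
      ∀ (T' : ℝ) (v : ℝ → V → V) (q : ℝ → V → ℝ), DSol ν T' Ω D G v q →
        (∀ x ∈ Ω, v 0 x = u 0 x) → T' ≤ T ∧ ∀ t ∈ Ico 0 T', ∀ x ∈ Ω, v t x = u t x := by
  intro Ω b ρ ν δ s a hΩ hb hρ hball hν hδ hs ha ha2 hsa
  set r := min ρ (1 / 8) with hr
  have hr0 : 0 < r := lt_min hρ (by norm_num)
  have hr1 : r < 1 / 4 := by
    have := min_le_right ρ (1 / 8)
    linarith
  have hrρ : r ≤ ρ := min_le_left _ _
  obtain ⟨χ, θ, hc⟩ := exists_cut hr0 hr1
  have hB : ∀ x : V, (∀ i, |x i - b i| < r) → x ∈ Metric.ball b ρ := by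
    intro x hx
    rw [Metric.mem_ball]
    refine lt_of_lt_of_le ((dist_pi_lt_iff hr0).2 fun i => ?_) hrρ
    rw [Real.dist_eq]
    exact hx i
  have hSB : Sb r b ⊆ Metric.ball b ρ := fun x hx => hB x fun i => by
    have := hx i
    linarith
  have hS : Sb r b ⊆ Ω := hSB.trans hball
  obtain ⟨K, hK1, hK⟩ := hc.exists_K (b := b) hb
  obtain ⟨s', a', R, Γ, h⟩ := exists_cho (δ := δ / K ^ 2) (ρ := r / 2) hν (by positivity)
    (by positivity) hs ha ha2 hsa
  obtain ⟨D, G, T, u, hL, hT, hu, hub, huS, hus⟩ := cho_main h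
  have hs0 : 0 ≤ s := by linarith
  have hLO := hc.lowerO hΩ hb hS hK1 hK hB hδ.le hs0 hs.le (by linarith) ha.le hL
  have hsol := hc.dsol hΩ hS hL.D_supp hL.G_supp hu hus huS
  have hun : ∀ M : ℝ, ∃ t ∈ Ico 0 T, ∃ x ∈ Ω, M < ‖uO χ b u t x‖ := by
    intro M
    obtain ⟨t, ht, x, hx, hM⟩ := hc.unbdd (b := b) hu.per_u huS hub M
    exact ⟨t, ht, x, hS hx, hM⟩
  refine ⟨DO χ θ b D, GO χ θ b G, T, uO χ b u, fun _ _ => 0, hLO, hT, hsol, fun t _ x hx =>
    hc.prod_zero (fun y => u t (sg b y)) fun hcon => hx (hSB hcon), hun, fun T' v q hv h0 =>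
    maximal hΩ hb hLO hs0 hs.le hδ.le hν hsol hun hv h0⟩

end Pool.Agent.V1183.DL
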