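import Pool.Agent.V1183.DL.Tran

/-!
The solution on a bounded open set.
-/

open MeasureTheory Set Filter Topology
open scoped ContDiff ENNReal

set_option autoImplicit false

namespace Pool.Agent.V1183.DL

open H459R3.NS Pool.Agent.V1178.NS

/-- the solution -/
noncomputable def uO (χ : ℝ → ℝ) (b : V) (u : ℝ → V → V) (t : ℝ) (x : V) : V :=
  chO χ b x • u t (sg b x)

section

variable {r : ℝ} {χ θ : ℝ → ℝ} {b : V} {Ω : Set V}

theorem per_fract {F : Type*} {f : V → F} (hf : Per f) (y : V) :
    f (fun i => Int.fract (y i)) = f y := by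
  have h := hf.int (fun i => ⌊y i⌋) (fun i => Int.fract (y i))
  rw [← h]
  congr 1
  funext i
  exact Int.fract_add_floor (y i)

theorem Cut.cut_eq (h : Cut r χ θ) {F : V → V} (hF : ∀ y ∉ Reg (r / 2), F y = 0) {x : V}
    (hx : sg b x ∈ U0) : chO χ b x • F (sg b x) = F (sg b x) := by
  by_cases hy : sg b x ∈ Reg (r / 2)
  · have h1 : chO χ b x = 1 := by
      rw [← h.chP_eq hx]
      exact Finset.prod_eq_one fun i _ => h.χ1 _ (hy i).le
    rw [h1, one_smul]
  · rw [hF _ hy, smul_zero]

theorem Cut.Pe_uO (h : Cut r χ θ) {u : V → V} (hper : Per u)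
    (hF : ∀ y ∉ Reg (r / 2), u y = 0) : Pe χ θ b (fun x => chO χ b x • u (sg b x)) = u := by
  funext y
  by_cases hy : y ∈ Reg (r / 2)
  · have h1 : chP χ y = 1 := Finset.prod_eq_one fun i _ => h.χ1 _ (hy i).le
    have hr := h.r0
    have h3 : ∀ i, per1 θ (y i) = Int.fract (y i) - 1 / 2 := fun i =>
      h.θ1 _ (by have := (hy i).le; linarith)
    have h4 : sg b (fun i => b i + per1 θ (y i)) = fun i => Int.fract (y i) := by
      funext i
      show b i + per1 θ (y i) - b i + 1 / 2 = _
      rw [h3]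
      ring
    have h5 : chO χ b (fun i => b i + per1 θ (y i)) = 1 := h.chO_one fun i => by
      rw [h3]
      have e : b i + (Int.fract (y i) - 1 / 2) - b i = Int.fract (y i) - 1 / 2 := by ring
      rw [e]
      exact (hy i).le
    show chP χ y • (chO χ b (fun i => b i + per1 θ (y i))
      • u (sg b (fun i => b i + per1 θ (y i)))) = u y
    rw [h1, h5, h4, one_smul, one_smul, per_fract hper]
  · rw [hF y hy]
    show chP χ y • (chO χ b (fun i => b i + per1 θ (y i))
      • u (sg b (fun i => b i + per1 θ (y i)))) = 0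
    by_cases h0 : chP χ y = 0
    · rw [h0, zero_smul]
    · have h2 : ∀ i, |Int.fract (y i) - 1 / 2| < 3 / 4 * r := by
        intro i
        by_contra hcon
        push Not at hcon
        exact h0 (Finset.prod_eq_zero (Finset.mem_univ i) (h.χ0 _ hcon))
      have hr := h.r0
      have h3 : ∀ i, per1 θ (y i) = Int.fract (y i) - 1 / 2 := fun i =>
        h.θ1 _ (by have := h2 i; linarith)
      have h4 : sg b (fun i => b i + per1 θ (y i)) = fun i => Int.fract (y i) := by
        funext i
        show b i + per1 θ (y i) - b i + 1 / 2 = _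
        rw [h3]
        ring
      rw [h4, per_fract hper, hF y hy, smul_zero, smul_zero]

/-- either `sg b x` is near the cell, or the cut-off function vanishes near `x` -/
theorem Cut.cases (h : Cut r χ θ) (x : V) : sg b x ∈ U0 ∨ ∀ᶠ y in 𝓝 x, chO χ b y = 0 := by
  by_cases hx : sg b x ∈ U0
  · exact Or.inl hx
  · right
    have h1 : ∃ i, sg b x i ∉ Ioo (-(1 / 4) : ℝ) (5 / 4) := by
      by_contra hcon
      push Not at hcon
      exact hx hcon
    obtain ⟨i, hi⟩ := h1
    have hr0 := h.r0
    have hr1 := h.r1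
    have h2 : 1 / 4 < |x i - b i| := by
      by_contra hcon
      push Not at hcon
      rw [abs_le] at hcon
      refine hi ⟨?_, ?_⟩
      · show -(1 / 4) < x i - b i + 1 / 2
        linarith
      · show x i - b i + 1 / 2 < 5 / 4
        linarith
    have hc : Continuous (fun y : V => |y i - b i|) := by fun_prop
    filter_upwards [hc.continuousAt.eventually (lt_mem_nhds h2)] with y hy
    exact h.chO_zero (i := i) (by linarith)

theorem sg_near {x : V} (hx : sg b x ∈ U0) : ∀ᶠ y in 𝓝 x, sg b y ∈ U0 :=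
  (sg_smooth b).continuous.continuousAt.eventually (U0_open.mem_nhds hx)

theorem pd_sg (f : V → ℝ) (j : Fin 3) (x : V) :
    pd j (fun y => f (sg b y)) x = pd j f (sg b x) := by
  unfold pd
  have e : (fun y => f (sg b y)) = fun y => f (y + sg b 0) := funext fun y => by rw [sg_add b y]
  rw [e, sg_add b x]
  congr 1
  exact fderiv_comp_add_right (f := f) (sg b 0)

theorem pd_congr' {f g : V → ℝ} {x : V} (h : f =ᶠ[𝓝 x] g) (j : Fin 3) : pd j f x = pd j g x := by
  unfold pd
  rw [h.fderiv_eq]

theorem pd_ev {f g : V → ℝ} {x : V} (h : f =ᶠ[𝓝 x] g) (j : Fin 3) : pd j f =ᶠ[𝓝 x] pd j g :=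
  h.eventually_nhds.mono fun _ hy => pd_congr' hy j

theorem pd_zero (j : Fin 3) : pd j (fun _ : V => (0 : ℝ)) = fun _ => 0 := by
  funext x
  unfold pd
  simp

theorem Cut.dsol (h : Cut r χ θ) (hΩ : IsOpen Ω) (hS : Sb r b ⊆ Ω)
    {ν T : ℝ} {D : (V → V) → V → V} {G : (V → V) → (V → V) → V → V} {u : ℝ → V → V}
    (hDs : ∀ v, SPV v → ∀ x ∉ Reg (r / 2), D v x = 0)
    (hGs : ∀ u v, SPV u → SPV v → ∀ x ∉ Reg (r / 2), G u v x = 0)
    (hu : PSol ν T D G u (fun _ _ => 0)) (hus : ∀ t ∈ Ico 0 T, SPV (u t))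
    (huS : ∀ t, ∀ y ∉ Reg (r / 2), u t y = 0) :
    DSol ν T Ω (DO χ θ b D) (GO χ θ b G) (uO χ b u) (fun _ _ => 0) := by
  -- near the cell
  have hnear : ∀ t (x : V), sg b x ∈ U0 → uO χ b u t x = u t (sg b x) := fun t x hx =>
    h.cut_eq (huS t) hx
  have hev : ∀ t (x : V), sg b x ∈ U0 → ∀ i, (fun y => uO χ b u t y i) =ᶠ[𝓝 x]
      fun y => u t (sg b y) i := by
    intro t x hx i
    filter_upwards [sg_near hx] with y hy
    rw [hnear t y hy]
  have hfar : ∀ t (x : V), (∀ᶠ y in 𝓝 x, chO χ b y = 0) → ∀ i, (fun y => uO χ b u t y i) =ᶠ[𝓝 x]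
      fun _ => 0 := by
    intro t x hx i
    filter_upwards [hx] with y hy
    show (chO χ b y • u t (sg b y)) i = 0
    rw [hy, zero_smul]
    rfl
  refine ⟨?_, contDiffOn_const, fun t ht x hx => ?_, fun t ht x hx => ?_, fun t ht x hx i => ?_⟩
  · have h1 : ContDiffOn ℝ ∞ (fun z : ℝ × V => u z.1 (sg b z.2)) (Ico 0 T ×ˢ univ) := by
      have hm : ContDiff ℝ ∞ (fun z : ℝ × V => ((z.1, sg b z.2) : ℝ × V)) :=
        contDiff_fst.prodMk ((sg_smooth b).comp contDiff_snd)
      exact hu.smooth_u.comp hm.contDiffOn fun z hz => ⟨hz.1, mem_univ _⟩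
    exact ((h.chO_smooth.comp contDiff_snd).contDiffOn).smul h1
  · have h1 : x ∉ Ω := by
      intro hx'
      rw [frontier, hΩ.interior_eq] at hx
      exact hx.2 hx'
    exact h.prod_zero (fun y => u t (sg b y)) fun hcon => h1 (hS hcon)
  · rcases h.cases (b := b) x with h1 | h1
    · have : ∀ i, pd i (fun y => uO χ b u t y i) x = pd i (fun y => u t y i) (sg b x) := by
        intro i
        rw [pd_congr' (hev t x h1 i)]
        exact pd_sg (fun y => u t y i) i x
      simp_rw [this]
      exact hu.divfree t ht (sg b x)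
    · have : ∀ i, pd i (fun y => uO χ b u t y i) x = 0 := by
        intro i
        rw [pd_congr' (hfar t x h1 i), pd_zero]
      simp_rw [this]
      simp
  · have ht' : t ∈ Ico 0 T := ⟨ht.1.le, ht.2⟩
    have hPe : Pe χ θ b (uO χ b u t) = u t := h.Pe_uO (hu.per_u t ht') (huS t)
    have hDO : DO χ θ b D (uO χ b u t) x = chO χ b x • D (u t) (sg b x) := by
      unfold DO
      rw [hPe]
    have hGO : GO χ θ b G (uO χ b u t) (uO χ b u t) x = chO χ b x • G (u t) (u t) (sg b x) := by
      unfold GO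
      rw [hPe]
    rw [hDO, hGO]
    rcases h.cases (b := b) x with h1 | h1
    · rw [h.cut_eq (hDs _ (hus t ht')) h1, h.cut_eq (hGs _ _ (hus t ht') (hus t ht')) h1]
      have e1 : (fun s => uO χ b u s x i) = fun s => u s (sg b x) i := funext fun s => by
        rw [hnear s x h1]
      have e2 : ∀ j, pd j (fun y => uO χ b u t y i) x = pd j (fun y => u t y i) (sg b x) := by
        intro j
        rw [pd_congr' (hev t x h1 i)]
        exact pd_sg (fun y => u t y i) j x
      have e3 : ∀ j, pd j (pd j (fun y => uO χ b u t y i)) x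
          = pd j (pd j (fun y => u t y i)) (sg b x) := by
        intro j
        have e4 : pd j (fun y => uO χ b u t y i) =ᶠ[𝓝 x]
            fun y => pd j (fun y => u t y i) (sg b y) := by
          refine (pd_ev (hev t x h1 i) j).trans ?_
          exact Eventually.of_forall fun y => pd_sg (fun y => u t y i) j y
        rw [pd_congr' e4]
        exact pd_sg (pd j (fun y => u t y i)) j x
      rw [e1, hnear t x h1]
      simp_rw [e2, e3]
      have key := hu.momentum t ht (sg b x) i
      have e5 : pd i (fun _ : V => (0 : ℝ)) (sg b x) = 0 := by rw [pd_zero]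
      have e6 : pd i (fun _ : V => (0 : ℝ)) x = 0 := by rw [pd_zero]
      simp only [e5] at key
      simp only [e6]
      exact key
    · have h2 : chO χ b x = 0 := h1.self_of_nhds
      have e1 : (fun s => uO χ b u s x i) = fun s => 0 := funext fun s => by
        show (chO χ b x • u s (sg b x)) i = 0
        rw [h2, zero_smul]
        rfl
      have e2 : ∀ j, pd j (fun y => uO χ b u t y i) x = 0 := by
        intro j
        rw [pd_congr' (hfar t x h1 i), pd_zero]
      have e3 : ∀ j, pd j (pd j (fun y => uO χ b u t y i)) x = 0 := by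
        intro j
        have e4 : pd j (fun y => uO χ b u t y i) =ᶠ[𝓝 x] fun _ => 0 := by
          refine (pd_ev (hfar t x h1 i) j).trans ?_
          rw [pd_zero]
        rw [pd_congr' e4, pd_zero]
      rw [e1, h2]
      simp_rw [e2, e3]
      simp [pd_zero]

/-- unboundedness -/
theorem Cut.unbdd (h : Cut r χ θ) {T : ℝ} {u : ℝ → V → V} (hper : ∀ t ∈ Ico 0 T, Per (u t))
    (huS : ∀ t, ∀ y ∉ Reg (r / 2), u t y = 0)
    (hub : ∀ M : ℝ, ∃ t ∈ Ico 0 T, ∃ x, M < ‖u t x‖) (M : ℝ) :
    ∃ t ∈ Ico 0 T, ∃ x ∈ Sb r b, M < ‖uO χ b u t x‖ := by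
  obtain ⟨t, ht, z, hz⟩ := hub |M|
  have hzR : z ∈ Reg (r / 2) := by
    by_contra hcon
    rw [huS t z hcon, norm_zero] at hz
    exact absurd hz (not_lt.2 (abs_nonneg M))
  have hr := h.r0
  have hx : ∀ i, ti b (fun i => Int.fract (z i)) i - b i = Int.fract (z i) - 1 / 2 := by
    intro i
    show Int.fract (z i) - 1 / 2 + b i - b i = _
    ring
  refine ⟨t, ht, ti b (fun i => Int.fract (z i)), fun i => ?_, ?_⟩
  · rw [hx]
    have := hzR i
    linarith
  · have h1 : chO χ b (ti b (fun i => Int.fract (z i))) = 1 := h.chO_one fun i => by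
      rw [hx]
      exact (hzR i).le
    show M < ‖chO χ b (ti b (fun i => Int.fract (z i)))
      • u t (sg b (ti b (fun i => Int.fract (z i))))‖
    rw [h1, one_smul, sg_ti, per_fract (hper t ht)]
    exact (le_abs_self M).trans_lt hz

end

end Pool.Agent.V1183.DL
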