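import Pool.Agent.V1183.DL.Cell
import Pool.Agent.V1178.NS.Syn

/-!
The operators on a bounded open set.
-/

open MeasureTheory Set Filter Topology
open scoped ContDiff ENNReal

set_option autoImplicit false

namespace Pool.Agent.V1183.DL

open H459R3.NS Pool.Agent.V1178.NS

/-- the linear operator on fields in `Ω` -/
noncomputable def DO (χ θ : ℝ → ℝ) (b : V) (D : (V → V) → V → V) (v : V → V) (x : V) : V :=
  chO χ b x • D (Pe χ θ b v) (sg b x)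

/-- the bilinear operator on fields in `Ω` -/
noncomputable def GO (χ θ : ℝ → ℝ) (b : V) (G : (V → V) → (V → V) → V → V) (u v : V → V)
    (x : V) : V :=
  chO χ b x • G (Pe χ θ b u) (Pe χ θ b v) (sg b x)

section

variable {r : ℝ} {χ θ : ℝ → ℝ} {b : V} {Ω : Set V}

theorem Pe_lin (χ θ : ℝ → ℝ) (b : V) (c : ℝ) (u v : V → V) :
    Pe χ θ b (c • u + v) = c • Pe χ θ b u + Pe χ θ b v := by
  funext x
  show chP χ x • (c • u _ + v _) = c • (chP χ x • u _) + chP χ x • v _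
  rw [smul_add, smul_comm]

theorem dotO_comm (Ω : Set V) (u v : V → V) : dotO Ω u v = dotO Ω v u := by
  unfold dotO
  refine Finset.sum_congr rfl fun i _ => ?_
  congr 1
  funext x
  ring

theorem Cut.Pe_local (h : Cut r χ θ) {v w : V → V} {B : Set V}
    (hB : ∀ x : V, (∀ i, |x i - b i| < r) → x ∈ B) (hvw : ∀ x ∈ B, v x = w x) :
    Pe χ θ b v = Pe χ θ b w := by
  funext y
  unfold Pe
  by_cases h0 : chP χ y = 0
  · rw [h0, zero_smul, zero_smul]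
  · congr 1
    refine hvw _ (hB _ fun i => ?_)
    have h1 : per1 χ (y i) ≠ 0 := fun hcon => h0 (Finset.prod_eq_zero (Finset.mem_univ i) hcon)
    have h2 : |Int.fract (y i) - 1 / 2| < 3 / 4 * r := by
      by_contra hcon
      push Not at hcon
      exact h1 (h.χ0 _ hcon)
    have hr := h.r0
    have h3 : per1 θ (y i) = Int.fract (y i) - 1 / 2 := h.θ1 _ (by linarith)
    rw [h3]
    have e : b i + (Int.fract (y i) - 1 / 2) - b i = Int.fract (y i) - 1 / 2 := by ring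
    rw [e]
    linarith

theorem pow_K {K x y e : ℝ} (hK : 1 ≤ K) (hx : 0 ≤ x) (hy : 0 ≤ y) (hxy : x ≤ K * y) (he0 : 0 ≤ e)
    (he1 : e ≤ 1) : x ^ e ≤ K * y ^ e := by
  calc x ^ e ≤ (K * y) ^ e := Real.rpow_le_rpow hx hxy he0
    _ = K ^ e * y ^ e := Real.mul_rpow (by linarith) hy
    _ ≤ K ^ (1 : ℝ) * y ^ e := by
      refine mul_le_mul_of_nonneg_right (Real.rpow_le_rpow_of_exponent_le hK he1)
        (Real.rpow_nonneg hy e)
    _ = K * y ^ e := by rw [Real.rpow_one]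

theorem one_le_of_inv {p : ℝ≥0∞} (h : p⁻¹ ≤ 1) : 1 ≤ p := by
  rwa [ENNReal.inv_le_one] at h

theorem Cut.lowerO (h : Cut r χ θ) (hΩ : IsOpen Ω) (hb : Bornology.IsBounded Ω)
    (hS : Sb r b ⊆ Ω) {K : ℝ} (hK1 : 1 ≤ K) (hK : ∀ x ∈ Ω, ‖fderiv ℝ (chO χ b) x‖ ≤ K)
    {B : Set V} (hB : ∀ x : V, (∀ i, |x i - b i| < r) → x ∈ B)
    {s a δ : ℝ} {D : (V → V) → V → V} {G : (V → V) → (V → V) → V → V} (hδ : 0 ≤ δ)
    (hs0 : 0 ≤ s) (hs1 : s ≤ 1) (ha0 : -1 ≤ a) (ha1 : a ≤ 1)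
    (hL : Lower s a (δ / K ^ 2) (r / 2) D G) : LowerO s a δ Ω B (DO χ θ b D) (GO χ θ b G) := by
  have hK0 : 0 < K := by linarith
  have hSB : Sb r b ⊆ B := fun x hx => hB x fun i => by
    have := hx i
    have := h.r0
    linarith
  have hsp : ∀ (F : V → V) (x : V), x ∉ B → chO χ b x • F (sg b x) = 0 := fun F x hx =>
    h.prod_zero (fun x => F (sg b x)) fun hcon => hx (hSB hcon)
  have hD : ∀ v w : V → V, dotO Ω (DO χ θ b D v) w = dot (D (Pe χ θ b v)) (Pe χ θ b w) :=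
    fun v w => h.dotO_eq hS (D (Pe χ θ b v)) w
  have hG : ∀ u v w : V → V, dotO Ω (GO χ θ b G u v) w
      = dot (G (Pe χ θ b u) (Pe χ θ b v)) (Pe χ θ b w) :=
    fun u v w => h.dotO_eq hS (G (Pe χ θ b u) (Pe χ θ b v)) w
  have hN : ∀ (p : ℝ≥0∞) (v : V → V), ContDiff ℝ ∞ v → Np p (Pe χ θ b v) ≤ NO Ω p v :=
    fun p v hv => h.Np_le hΩ hb hS hv p
  have hN' : ∀ (p : ℝ≥0∞) (v : V → V), 1 ≤ p → ContDiff ℝ ∞ v →
      Np p (fderiv ℝ (Pe χ θ b v)) ≤ K * W1 Ω p v :=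
    fun p v hp hv => h.Np_fderiv_le hΩ hb hS hK1 hK hv hp
  refine ⟨⟨fun v hv => ?_, fun c u v hu hv => ?_, fun v w hv hw => ?_, fun v hv => ?_,
    fun p q hpq v w hv hw => ?_, fun v w hv hw hvw => ?_, fun v hv x hx => hsp _ x hx⟩,
    ⟨fun u v hu hv => ?_, fun c u u' v hu hu' hv => ?_, fun c u v v' hu hv hv' => ?_,
    fun v hv => ?_, fun p q t hpqt u v w hu hv hw => ?_, fun u v u' v' hu hv hu' hv' h1 h2 => ?_,
    fun u v hu hv x hx => hsp _ x hx⟩⟩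
  · exact h.chO_smooth.smul ((hL.D_smooth _ (h.Pe_spv hv)).1.comp (sg_smooth b))
  · funext x
    unfold DO
    rw [Pe_lin, hL.D_linear c _ _ (h.Pe_spv hu) (h.Pe_spv hv)]
    show chO χ b x • (c • D (Pe χ θ b u) (sg b x) + D (Pe χ θ b v) (sg b x))
      = c • (chO χ b x • D (Pe χ θ b u) (sg b x)) + chO χ b x • D (Pe χ θ b v) (sg b x)
    rw [smul_add, smul_comm]
  · rw [hD, dotO_comm, hD, hL.D_symm _ _ (h.Pe_spv hv) (h.Pe_spv hw), dot_comm]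
  · rw [hD]
    exact hL.D_nonneg _ (h.Pe_spv hv)
  · rw [hD]
    have hp : 1 ≤ p := one_le_of_inv (by rw [← hpq]; exact le_self_add)
    have hq : 1 ≤ q := one_le_of_inv (by rw [← hpq]; exact le_add_self)
    have e1 := hL.D_order p q hpq _ _ (h.Pe_spv (b := b) hv) (h.Pe_spv (b := b) hw)
    refine e1.trans ?_
    have n1 := Np_nonneg p (Pe χ θ b v)
    have n2 := Np_nonneg p (fderiv ℝ (Pe χ θ b v))
    have n3 := Np_nonneg q (Pe χ θ b w)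
    have n4 := Np_nonneg q (fderiv ℝ (Pe χ θ b w))
    have m1 := NO_nonneg (Ω := Ω) p v
    have m2 := W1_nonneg (Ω := Ω) p v
    have m3 := NO_nonneg (Ω := Ω) q w
    have m4 := W1_nonneg (Ω := Ω) q w
    have k1 : Np p (Pe χ θ b v) ^ ((1 - a) / 2) ≤ NO Ω p v ^ ((1 - a) / 2) :=
      Real.rpow_le_rpow n1 (hN p v hv) (by linarith)
    have k2 : Np p (fderiv ℝ (Pe χ θ b v)) ^ ((1 + a) / 2) ≤ K * W1 Ω p v ^ ((1 + a) / 2) :=
      pow_K hK1 n2 m2 (hN' p v hp hv) (by linarith) (by linarith)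
    have k3 : Np q (Pe χ θ b w) ^ ((1 - a) / 2) ≤ NO Ω q w ^ ((1 - a) / 2) :=
      Real.rpow_le_rpow n3 (hN q w hw) (by linarith)
    have k4 : Np q (fderiv ℝ (Pe χ θ b w)) ^ ((1 + a) / 2) ≤ K * W1 Ω q w ^ ((1 + a) / 2) :=
      pow_K hK1 n4 m4 (hN' q w hq hw) (by linarith) (by linarith)
    have p1 : 0 ≤ Np p (Pe χ θ b v) ^ ((1 - a) / 2) := Real.rpow_nonneg n1 _
    have p2 : 0 ≤ Np p (fderiv ℝ (Pe χ θ b v)) ^ ((1 + a) / 2) := Real.rpow_nonneg n2 _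
    have p3 : 0 ≤ Np q (Pe χ θ b w) ^ ((1 - a) / 2) := Real.rpow_nonneg n3 _
    have p4 : 0 ≤ Np q (fderiv ℝ (Pe χ θ b w)) ^ ((1 + a) / 2) := Real.rpow_nonneg n4 _
    have q1 : 0 ≤ NO Ω p v ^ ((1 - a) / 2) := Real.rpow_nonneg m1 _
    have q2 : 0 ≤ W1 Ω p v ^ ((1 + a) / 2) := Real.rpow_nonneg m2 _
    have q3 : 0 ≤ NO Ω q w ^ ((1 - a) / 2) := Real.rpow_nonneg m3 _
    have q4 : 0 ≤ W1 Ω q w ^ ((1 + a) / 2) := Real.rpow_nonneg m4 _
    calc δ / K ^ 2 * ((Np p (Pe χ θ b v) ^ ((1 - a) / 2)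
          * Np p (fderiv ℝ (Pe χ θ b v)) ^ ((1 + a) / 2))
          * (Np q (Pe χ θ b w) ^ ((1 - a) / 2) * Np q (fderiv ℝ (Pe χ θ b w)) ^ ((1 + a) / 2)))
        ≤ δ / K ^ 2 * ((NO Ω p v ^ ((1 - a) / 2) * (K * W1 Ω p v ^ ((1 + a) / 2)))
          * (NO Ω q w ^ ((1 - a) / 2) * (K * W1 Ω q w ^ ((1 + a) / 2)))) := by
          refine mul_le_mul_of_nonneg_left ?_ (by positivity)
          exact mul_le_mul (mul_le_mul k1 k2 p2 q1) (mul_le_mul k3 k4 p4 q3) (mul_nonneg p3 p4)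
            (mul_nonneg q1 (mul_nonneg hK0.le q2))
      _ = δ / K ^ 2 * K ^ 2 * ((NO Ω p v ^ ((1 - a) / 2) * W1 Ω p v ^ ((1 + a) / 2))
          * (NO Ω q w ^ ((1 - a) / 2) * W1 Ω q w ^ ((1 + a) / 2))) := by ring
      _ = _ := by rw [div_mul_cancel₀ _ (by positivity)]
  · funext x
    unfold DO
    rw [h.Pe_local hB hvw]
  · exact h.chO_smooth.smul ((hL.G_smooth _ _ (h.Pe_spv hu) (h.Pe_spv hv)).1.comp (sg_smooth b))
  · funext x
    unfold GO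
    rw [Pe_lin, hL.G_left c _ _ _ (h.Pe_spv hu) (h.Pe_spv hu') (h.Pe_spv hv)]
    show chO χ b x • (c • G (Pe χ θ b u) (Pe χ θ b v) (sg b x)
        + G (Pe χ θ b u') (Pe χ θ b v) (sg b x))
      = c • (chO χ b x • G (Pe χ θ b u) (Pe χ θ b v) (sg b x))
        + chO χ b x • G (Pe χ θ b u') (Pe χ θ b v) (sg b x)
    rw [smul_add, smul_comm]
  · funext x
    unfold GO
    rw [Pe_lin, hL.G_right c _ _ _ (h.Pe_spv hu) (h.Pe_spv hv) (h.Pe_spv hv')]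
    show chO χ b x • (c • G (Pe χ θ b u) (Pe χ θ b v) (sg b x)
        + G (Pe χ θ b u) (Pe χ θ b v') (sg b x))
      = c • (chO χ b x • G (Pe χ θ b u) (Pe χ θ b v) (sg b x))
        + chO χ b x • G (Pe χ θ b u) (Pe χ θ b v') (sg b x)
    rw [smul_add, smul_comm]
  · rw [hG]
    exact hL.G_neutral _ (h.Pe_spv hv)
  · rw [hG]
    have hq : 1 ≤ q := one_le_of_inv (by
      rw [← hpqt, add_assoc, add_comm, add_assoc]
      exact le_self_add)
    have e1 := hL.G_order p q t hpqt _ _ _ (h.Pe_spv (b := b) hu) (h.Pe_spv (b := b) hv)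
      (h.Pe_spv (b := b) hw)
    refine e1.trans ?_
    have n0 := Np_nonneg p (Pe χ θ b u)
    have n1 := Np_nonneg q (Pe χ θ b v)
    have n2 := Np_nonneg q (fderiv ℝ (Pe χ θ b v))
    have n3 := Np_nonneg t (Pe χ θ b w)
    have m0 := NO_nonneg (Ω := Ω) p u
    have m1 := NO_nonneg (Ω := Ω) q v
    have m2 := W1_nonneg (Ω := Ω) q v
    have m3 := NO_nonneg (Ω := Ω) t w
    have k0 := hN p u hu
    have k1 : Np q (Pe χ θ b v) ^ (1 - s) ≤ NO Ω q v ^ (1 - s) :=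
      Real.rpow_le_rpow n1 (hN q v hv) (by linarith)
    have k2 : Np q (fderiv ℝ (Pe χ θ b v)) ^ s ≤ K * W1 Ω q v ^ s :=
      pow_K hK1 n2 m2 (hN' q v hq hv) hs0 hs1
    have k3 := hN t w hw
    have p1 : 0 ≤ Np q (Pe χ θ b v) ^ (1 - s) := Real.rpow_nonneg n1 _
    have p2 : 0 ≤ Np q (fderiv ℝ (Pe χ θ b v)) ^ s := Real.rpow_nonneg n2 _
    have q1 : 0 ≤ NO Ω q v ^ (1 - s) := Real.rpow_nonneg m1 _
    have q2 : 0 ≤ W1 Ω q v ^ s := Real.rpow_nonneg m2 _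
    have hd : δ / K ^ 2 * K ≤ δ := by
      have e : δ / K ^ 2 * K = δ / K := by field_simp
      rw [e]
      exact div_le_self hδ hK1
    calc δ / K ^ 2 * (Np p (Pe χ θ b u) * (Np q (Pe χ θ b v) ^ (1 - s)
          * Np q (fderiv ℝ (Pe χ θ b v)) ^ s) * Np t (Pe χ θ b w))
        ≤ δ / K ^ 2 * (NO Ω p u * (NO Ω q v ^ (1 - s) * (K * W1 Ω q v ^ s)) * NO Ω t w) := by
          refine mul_le_mul_of_nonneg_left ?_ (by positivity)
          exact mul_le_mul (mul_le_mul k0 (mul_le_mul k1 k2 p2 q1) (mul_nonneg p1 p2) m0) k3 n3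
            (mul_nonneg m0 (mul_nonneg q1 (mul_nonneg hK0.le q2)))
      _ = δ / K ^ 2 * K * (NO Ω p u * (NO Ω q v ^ (1 - s) * W1 Ω q v ^ s) * NO Ω t w) := by ring
      _ ≤ _ := mul_le_mul_of_nonneg_right hd
        (mul_nonneg (mul_nonneg m0 (mul_nonneg q1 q2)) m3)
  · funext x
    unfold GO
    rw [h.Pe_local hB h1, h.Pe_local hB h2]

end

end Pool.Agent.V1183.DL
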